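import Pool.Agent.helper45.AB2.Defs

/-!
# Ito's theorem
-/

set_option autoImplicit false

namespace Pool.Agent.helper45.AB2

universe u

open scoped commutatorElement

variable {G : Type u} [Group G] {A B : Subgroup G}

/-- conjugating `[a,b]` by `y ∈ A` -/
theorem ito_conjA (hP : ∀ g : G, ∃ a ∈ A, ∃ b ∈ B, a * b = g)
    (hA : ∀ x ∈ A, ∀ y ∈ A, x * y = y * x) {b y : G} (hy : y ∈ A) :
    ∃ b2 ∈ B, (∃ a2 ∈ A, y⁻¹ * b * y = a2 * b2) ∧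
      ∀ x ∈ A, y⁻¹ * (x⁻¹ * b⁻¹ * x * b) * y = x⁻¹ * b2⁻¹ * x * b2 := by
  obtain ⟨a2, ha2, b2, hb2, h⟩ := hP (y⁻¹ * b * y)
  refine ⟨b2, hb2, ⟨a2, ha2, h.symm⟩, ?_⟩
  intro x hx
  have c1 : y⁻¹ * x⁻¹ * y = x⁻¹ := by rw [hA _ (A.inv_mem hy) _ (A.inv_mem hx)]; group
  have c2 : y⁻¹ * x * y = x := by rw [hA _ (A.inv_mem hy) _ hx]; group
  have e : y⁻¹ * (x⁻¹ * b⁻¹ * x * b) * y
      = (y⁻¹ * x⁻¹ * y) * (y⁻¹ * b * y)⁻¹ * (y⁻¹ * x * y) * (y⁻¹ * b * y) := by group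
  rw [e, c1, c2, ← h]
  have e2 : x⁻¹ * (a2 * b2)⁻¹ * x * (a2 * b2) = x⁻¹ * b2⁻¹ * (a2⁻¹ * x) * a2 * b2 := by group
  rw [e2, hA _ (A.inv_mem ha2) _ hx]
  group

theorem ito_conjB (hP : ∀ g : G, ∃ a ∈ A, ∃ b ∈ B, a * b = g)
    (hB : ∀ x ∈ B, ∀ y ∈ B, x * y = y * x) {a y : G} (hy : y ∈ B) :
    ∃ a3 ∈ A, (∃ b3 ∈ B, y⁻¹ * a * y = b3 * a3) ∧
      ∀ x ∈ B, y⁻¹ * (a⁻¹ * x⁻¹ * a * x) * y = a3⁻¹ * x⁻¹ * a3 * x := by
  obtain ⟨a2, ha2, b2, hb2, h⟩ := hP (y⁻¹ * a⁻¹ * y)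
  have h' : y⁻¹ * a * y = b2⁻¹ * a2⁻¹ := by rw [← mul_inv_rev, h]; group
  refine ⟨a2⁻¹, A.inv_mem ha2, ⟨b2⁻¹, B.inv_mem hb2, h'⟩, ?_⟩
  intro x hx
  have c1 : y⁻¹ * x⁻¹ * y = x⁻¹ := by rw [hB _ (B.inv_mem hy) _ (B.inv_mem hx)]; group
  have c2 : y⁻¹ * x * y = x := by rw [hB _ (B.inv_mem hy) _ hx]; group
  have e : y⁻¹ * (a⁻¹ * x⁻¹ * a * x) * y
      = (y⁻¹ * a * y)⁻¹ * (y⁻¹ * x⁻¹ * y) * (y⁻¹ * a * y) * (y⁻¹ * x * y) := by group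
  rw [e, c1, c2, h']
  have e2 : (b2⁻¹ * a2⁻¹)⁻¹ * x⁻¹ * (b2⁻¹ * a2⁻¹) * x = a2 * (b2 * x⁻¹) * b2⁻¹ * a2⁻¹ * x := by group
  rw [e2, hB _ hb2 _ (B.inv_mem hx)]
  group

theorem ito_commute (hP : ∀ g : G, ∃ a ∈ A, ∃ b ∈ B, a * b = g)
    (hA : ∀ x ∈ A, ∀ y ∈ A, x * y = y * x) (hB : ∀ x ∈ B, ∀ y ∈ B, x * y = y * x)
    {a b a1 b1 : G} (ha : a ∈ A) (hb : b ∈ B) (ha1 : a1 ∈ A) (hb1 : b1 ∈ B) :
    (a⁻¹ * b⁻¹ * a * b) * (a1⁻¹ * b1⁻¹ * a1 * b1) = (a1⁻¹ * b1⁻¹ * a1 * b1) * (a⁻¹ * b⁻¹ * a * b) := by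
  -- conjugate by `a1⁻¹`, `b1⁻¹`
  obtain ⟨b2, hb2, -, h2⟩ := ito_conjA hP hA (b := b) (A.inv_mem ha1)
  obtain ⟨a3, ha3, -, h3⟩ := ito_conjB hP hB (a := a) (B.inv_mem hb1)
  have e1 := h2 a ha
  have e2 := h3 b2 hb2
  have e3 := h3 b hb
  have e4 := h2 a3 ha3
  rw [inv_inv] at e1 e2 e3 e4
  -- b1 * (a1 * u * a1⁻¹) * b1⁻¹ = a1 * (b1 * u * b1⁻¹) * a1⁻¹
  have e5 : b1 * (a1 * (a⁻¹ * b⁻¹ * a * b) * a1⁻¹) * b1⁻¹
      = a1 * (b1 * (a⁻¹ * b⁻¹ * a * b) * b1⁻¹) * a1⁻¹ := by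
    rw [e1, e2, e3, e4]
  generalize a⁻¹ * b⁻¹ * a * b = u at e5
  have e6 : u * (a1⁻¹ * b1⁻¹ * a1 * b1)⁻¹ = (a1⁻¹ * b1⁻¹ * a1 * b1)⁻¹ * u := by
    have e7 : u * (a1⁻¹ * b1⁻¹ * a1 * b1)⁻¹
        = b1⁻¹ * a1⁻¹ * (a1 * (b1 * u * b1⁻¹) * a1⁻¹) * b1 * a1 := by group
    rw [e7, ← e5]
    group
  generalize a1⁻¹ * b1⁻¹ * a1 * b1 = v at e6
  have e8 : u * v = v * (v⁻¹ * u) * v := by group
  rw [e8, ← e6]
  group

/-- the subgroup generated by the commutators `[a,b]` -/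
def KK (A B : Subgroup G) : Subgroup G :=
  Subgroup.closure {x | ∃ a ∈ A, ∃ b ∈ B, x = a⁻¹ * b⁻¹ * a * b}

theorem KK_comm (hP : ∀ g : G, ∃ a ∈ A, ∃ b ∈ B, a * b = g)
    (hA : ∀ x ∈ A, ∀ y ∈ A, x * y = y * x) (hB : ∀ x ∈ B, ∀ y ∈ B, x * y = y * x) :
    ∀ x ∈ KK A B, ∀ y ∈ KK A B, x * y = y * x := by
  have h1 : ∀ x ∈ KK A B, ∀ a ∈ A, ∀ b ∈ B,
      x * (a⁻¹ * b⁻¹ * a * b) = (a⁻¹ * b⁻¹ * a * b) * x := by
    intro x hx a ha b hb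
    have : KK A B ≤ Subgroup.centralizer {a⁻¹ * b⁻¹ * a * b} := by
      rw [KK, Subgroup.closure_le]
      rintro _ ⟨a1, ha1, b1, hb1, rfl⟩
      rw [SetLike.mem_coe, Subgroup.mem_centralizer_iff]
      intro k hk
      rw [Set.mem_singleton_iff] at hk
      subst hk
      exact ito_commute hP hA hB ha hb ha1 hb1
    have := this hx
    rw [Subgroup.mem_centralizer_iff] at this
    exact (this _ (Set.mem_singleton _)).symm
  intro x hx y hy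
  have : KK A B ≤ Subgroup.centralizer {x} := by
    rw [KK, Subgroup.closure_le]
    rintro _ ⟨a1, ha1, b1, hb1, rfl⟩
    rw [SetLike.mem_coe, Subgroup.mem_centralizer_iff]
    intro k hk
    rw [Set.mem_singleton_iff] at hk
    subst hk
    exact h1 _ hx a1 ha1 b1 hb1
  have := this hy
  rw [Subgroup.mem_centralizer_iff] at this
  exact this _ (Set.mem_singleton _)

theorem KK_normal (hP : ∀ g : G, ∃ a ∈ A, ∃ b ∈ B, a * b = g)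
    (hA : ∀ x ∈ A, ∀ y ∈ A, x * y = y * x) (hB : ∀ x ∈ B, ∀ y ∈ B, x * y = y * x) :
    (KK A B).Normal := by
  have hmem : ∀ a ∈ A, ∀ b ∈ B, a⁻¹ * b⁻¹ * a * b ∈ KK A B := fun a ha b hb =>
    Subgroup.subset_closure ⟨a, ha, b, hb, rfl⟩
  have cA : ∀ y ∈ A, ∀ x ∈ KK A B, y⁻¹ * x * y ∈ KK A B := by
    intro y hy x hx
    have : KK A B ≤ (KK A B).comap (MulAut.conj y⁻¹).toMonoidHom := by
      nth_rewrite 1 [KK]
      rw [Subgroup.closure_le]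
      rintro _ ⟨a1, ha1, b1, hb1, rfl⟩
      rw [SetLike.mem_coe, Subgroup.mem_comap]
      obtain ⟨b2, hb2, -, h2⟩ := ito_conjA hP hA (b := b1) hy
      have := h2 a1 ha1
      simp only [MulEquiv.coe_toMonoidHom, MulAut.conj_apply, inv_inv]
      rw [this]
      exact hmem _ ha1 _ hb2
    have := this hx
    rw [Subgroup.mem_comap] at this
    simpa only [MulEquiv.coe_toMonoidHom, MulAut.conj_apply, inv_inv] using this
  have cB : ∀ y ∈ B, ∀ x ∈ KK A B, y⁻¹ * x * y ∈ KK A B := by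
    intro y hy x hx
    have : KK A B ≤ (KK A B).comap (MulAut.conj y⁻¹).toMonoidHom := by
      nth_rewrite 1 [KK]
      rw [Subgroup.closure_le]
      rintro _ ⟨a1, ha1, b1, hb1, rfl⟩
      rw [SetLike.mem_coe, Subgroup.mem_comap]
      obtain ⟨a2, ha2, -, h2⟩ := ito_conjB hP hB (a := a1) hy
      have := h2 b1 hb1
      simp only [MulEquiv.coe_toMonoidHom, MulAut.conj_apply, inv_inv]
      rw [this]
      exact hmem _ ha2 _ hb1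
    have := this hx
    rw [Subgroup.mem_comap] at this
    simpa only [MulEquiv.coe_toMonoidHom, MulAut.conj_apply, inv_inv] using this
  constructor
  intro n hn g
  obtain ⟨a, ha, b, hb, rfl⟩ := hP g
  have h1 := cB _ (B.inv_mem hb) n hn
  have h2 := cA _ (A.inv_mem ha) _ h1
  have e : a * b * n * (a * b)⁻¹ = a⁻¹⁻¹ * (b⁻¹⁻¹ * n * b⁻¹) * a⁻¹ := by group
  rw [e]; exact h2

/-- Ito: `G = AB` with `A`, `B` abelian is metabelian. -/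
theorem ito (hP : ∀ g : G, ∃ a ∈ A, ∃ b ∈ B, a * b = g)
    (hA : ∀ x ∈ A, ∀ y ∈ A, x * y = y * x) (hB : ∀ x ∈ B, ∀ y ∈ B, x * y = y * x) :
    derivedSeries G 2 = ⊥ := by
  have := KK_normal hP hA hB
  have h1 : derivedSeries G 1 ≤ KK A B := by
    rw [derivedSeries_succ, derivedSeries_zero, Subgroup.commutator_le]
    have hab : ∀ a ∈ A, ∀ b ∈ B, (a : G ⧸ KK A B) * b = b * a := by
      intro a ha b hb
      have : (((a⁻¹ * b⁻¹ * a * b : G)) : G ⧸ KK A B) = 1 :=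
        (QuotientGroup.eq_one_iff _).2 (Subgroup.subset_closure ⟨a, ha, b, hb, rfl⟩)
      have e : (a⁻¹ * b⁻¹ * a * b : G) = (b * a)⁻¹ * (a * b) := by group
      rw [e, QuotientGroup.mk_mul, QuotientGroup.mk_inv, inv_mul_eq_one, QuotientGroup.mk_mul,
        QuotientGroup.mk_mul] at this
      exact this.symm
    intro g _ k _
    rw [← QuotientGroup.eq_one_iff]
    obtain ⟨a, ha, b, hb, rfl⟩ := hP g
    obtain ⟨a', ha', b', hb', rfl⟩ := hP k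
    have c1 : (a : G ⧸ KK A B) * a' = a' * a := by
      rw [← QuotientGroup.mk_mul, hA a ha a' ha', QuotientGroup.mk_mul]
    have c2 : (b : G ⧸ KK A B) * b' = b' * b := by
      rw [← QuotientGroup.mk_mul, hB b hb b' hb', QuotientGroup.mk_mul]
    have c3 := hab a ha b' hb'
    have c4 := hab a' ha' b hb
    have c5 : ((a * b : G) : G ⧸ KK A B) * ((a' * b' : G) : G ⧸ KK A B)
        = ((a' * b' : G) : G ⧸ KK A B) * ((a * b : G) : G ⧸ KK A B) := by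
      simp only [QuotientGroup.mk_mul]
      calc (a : G ⧸ KK A B) * b * (a' * b') = a * (b * a') * b' := by group
        _ = (a * a') * (b * b') := by rw [← c4]; group
        _ = a' * (a * b') * b := by rw [c1, c2]; group
        _ = a' * b' * (a * b) := by rw [c3]; group
    have : ((⁅a * b, a' * b'⁆ : G) : G ⧸ KK A B)
        = ((a * b : G) : G ⧸ KK A B) * ((a' * b' : G) : G ⧸ KK A B) *
          (((a' * b' : G) : G ⧸ KK A B) * ((a * b : G) : G ⧸ KK A B))⁻¹ := by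
      rw [commutatorElement_def]
      simp only [QuotientGroup.mk_mul, QuotientGroup.mk_inv]
      group
    rw [this, c5, mul_inv_cancel]
  rw [derivedSeries_succ, eq_bot_iff]
  refine (Subgroup.commutator_mono h1 h1).trans ?_
  rw [Subgroup.commutator_le]
  intro x hx y hy
  rw [Subgroup.mem_bot, commutatorElement_eq_one_iff_mul_comm]
  exact KK_comm hP hA hB x hx y hy

/-- local form: a subgroup `H ⊆ A C` with `C ≤ H`, `A`, `C` abelian, is metabelian -/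
theorem ito_local {A C H : Subgroup G} (hP : ∀ g ∈ H, ∃ a ∈ A, ∃ c ∈ C, a * c = g)
    (hCH : C ≤ H)
    (hA : ∀ x ∈ A, ∀ y ∈ A, x * y = y * x) (hC : ∀ x ∈ C, ∀ y ∈ C, x * y = y * x) :
    derivedSeries H 2 = ⊥ := by
  apply ito (A := A.subgroupOf H) (B := C.subgroupOf H)
  · rintro ⟨g, hg⟩
    obtain ⟨a, ha, c, hc, h⟩ := hP g hg
    have haH : a ∈ H := by
      have e : a = g * c⁻¹ := by rw [← h]; group
      rw [e]
      exact H.mul_mem hg (H.inv_mem (hCH hc))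
    exact ⟨⟨a, haH⟩, Subgroup.mem_subgroupOf.2 ha, ⟨c, hCH hc⟩, Subgroup.mem_subgroupOf.2 hc,
      Subtype.ext h⟩
  · rintro ⟨x, hx⟩ hxA ⟨y, hy⟩ hyA
    exact Subtype.ext (hA x (Subgroup.mem_subgroupOf.1 hxA) y (Subgroup.mem_subgroupOf.1 hyA))
  · rintro ⟨x, hx⟩ hxA ⟨y, hy⟩ hyA
    exact Subtype.ext (hC x (Subgroup.mem_subgroupOf.1 hxA) y (Subgroup.mem_subgroupOf.1 hyA))

end Pool.Agent.helper45.AB2
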