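import Pool.Agent.helper45.AB2.Main
import Pool.Agent.helper45.AB2.Ito

/-!
# Reduction to `P1` and the theorem
-/

set_option autoImplicit false

namespace Pool.Agent.helper45.AB2

universe u

open scoped commutatorElement

variable {G : Type u} [Group G] {A B C : Subgroup G}

/-- membership in the product set `AC` -/
def InP (A C : Subgroup G) (g : G) : Prop := ∃ a ∈ A, ∃ c ∈ C, a * c = g

/-- the right stabiliser of `AC` -/
def HH (A C : Subgroup G) : Subgroup G where
  carrier := {g | ∀ x, InP A C x ↔ InP A C (x * g)}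
  one_mem' := by intro x; rw [mul_one]
  mul_mem' := by
    intro a b ha hb x
    rw [← mul_assoc]
    exact (ha x).trans (hb (x * a))
  inv_mem' := by
    intro a ha x
    have := ha (x * a⁻¹)
    rw [inv_mul_cancel_right] at this
    exact this.symm

theorem mem_HH {g : G} : g ∈ HH A C ↔ ∀ x, InP A C x ↔ InP A C (x * g) := Iff.rfl

theorem C_le_HH : C ≤ HH A C := by
  intro c hc
  rw [mem_HH]
  intro x
  constructor
  · rintro ⟨a, ha, d, hd, rfl⟩
    exact ⟨a, ha, d * c, C.mul_mem hd hc, by group⟩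
  · rintro ⟨a, ha, d, hd, h⟩
    exact ⟨a, ha, d * c⁻¹, C.mul_mem hd (C.inv_mem hc), by rw [← mul_assoc, h]; group⟩

theorem HH_sub {g : G} (hg : g ∈ HH A C) : InP A C g := by
  have := (mem_HH.1 hg 1).1 ⟨1, A.one_mem, 1, C.one_mem, by simp⟩
  rwa [one_mul] at this

section
variable (hF : Fac A B C) (hne : ∃ g : G, ¬ InP A C g)
include hF hne

/-- no element of `B` outside `C` is in `AC` -/
theorem not_InP {s : G} (hs : s ∈ B) (hsC : s ∉ C) : ¬ InP A C s := by
  rintro ⟨a, ha, c, hc, hac⟩
  obtain ⟨g, hg⟩ := hne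
  apply hg
  obtain ⟨a', ha', b, hb, rfl⟩ := hF.prod g
  by_cases hbC : b ∈ C
  · exact ⟨a', ha', b, hbC, rfl⟩
  · have h1 : s⁻¹ * b ∈ C := hF.index _ (B.inv_mem hs) _ hb
      (fun h => hsC (by simpa using C.inv_mem h)) hbC
    refine ⟨a' * a, A.mul_mem ha' ha, c * (s⁻¹ * b), C.mul_mem hc h1, ?_⟩
    have e : a' * a * (c * (s⁻¹ * b)) = a' * (a * c) * (s⁻¹ * b) := by group
    rw [e, hac]
    group

theorem InP_mul {s : G} (hs : s ∈ B) (hsC : s ∉ C) (y : G) : InP A C y ↔ ¬ InP A C (y * s) := by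
  constructor
  · rintro ⟨a, ha, c, hc, rfl⟩ ⟨a', ha', c', hc', h⟩
    have h1 : c * s ∉ C := fun h => hsC (by
      have := C.mul_mem (C.inv_mem hc) h
      simpa [← mul_assoc] using this)
    apply not_InP hF hne (B.mul_mem (hF.le hc) hs) h1
    refine ⟨a⁻¹ * a', A.mul_mem (A.inv_mem ha) ha', c', hc', ?_⟩
    rw [mul_assoc, h]; group
  · intro h
    by_contra hy
    apply h
    obtain ⟨a, ha, b, hb, rfl⟩ := hF.prod y
    have hbC : b ∉ C := fun hb' => hy ⟨a, ha, b, hb', rfl⟩
    exact ⟨a, ha, b * s, hF.index _ hb _ hs hbC hsC, by group⟩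

/-- `B` normalises `H` -/
theorem HH_conj {b x : G} (hb : b ∈ B) (hx : x ∈ HH A C) : b * x * b⁻¹ ∈ HH A C := by
  by_cases hbC : b ∈ C
  · exact (HH A C).mul_mem ((HH A C).mul_mem (C_le_HH hbC) hx) ((HH A C).inv_mem (C_le_HH hbC))
  · rw [mem_HH]
    intro y
    have hbC' : b⁻¹ ∉ C := fun h => hbC (by simpa using C.inv_mem h)
    rw [InP_mul hF hne hb hbC y, mem_HH.1 hx (y * b),
      InP_mul hF hne (B.inv_mem hb) hbC' (y * b * x), not_not]
    have e : y * b * x * b⁻¹ = y * (b * x * b⁻¹) := by group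
    rw [e]

theorem A_inter_le {x : G} (hx : x ∈ A) (hxH : x ∈ HH A C) : x ∈ (HH A C).normalCore := by
  intro g
  obtain ⟨b, hb, a, ha, rfl⟩ := hF.prod' g
  have e : b * a * x * (b * a)⁻¹ = b * (a * x) * a⁻¹ * b⁻¹ := by group
  rw [e, hF.commA _ ha _ hx]
  have e2 : b * (x * a) * a⁻¹ * b⁻¹ = b * x * b⁻¹ := by group
  rw [e2]
  exact HH_conj hF hne hb hxH

omit hne in
/-- normal subgroups not contained in the core contain `G''` -/
theorem derived_le (N : Subgroup G) [N.Normal] (hN : ¬ N ≤ (HH A C).normalCore) :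
    derivedSeries G 2 ≤ N := by
  -- some element of `N` is outside `AC`
  have h1 : ∃ n ∈ N, ¬ InP A C n := by
    by_contra hcon
    push Not at hcon
    apply hN
    rw [Subgroup.normal_le_normalCore]
    have h2 : ∀ n ∈ N, ∀ x, InP A C x → InP A C (x * n) := by
      rintro n hn _ ⟨a, ha, c, hc, rfl⟩
      obtain ⟨a', ha', c', hc', h⟩ := hcon (c * n * c⁻¹) (Subgroup.Normal.conj_mem ‹_› n hn c)
      refine ⟨a * a', A.mul_mem ha ha', c' * c, C.mul_mem hc' hc, ?_⟩
      have e : a * a' * (c' * c) = a * (a' * c') * c := by group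
      rw [e, h]; group
    intro n hn
    rw [mem_HH]
    intro x
    refine ⟨h2 n hn x, fun h => ?_⟩
    have := h2 n⁻¹ (N.inv_mem hn) _ h
    rwa [mul_inv_cancel_right] at this
  obtain ⟨n0, hn0, hn0'⟩ := h1
  obtain ⟨a0, ha0, b0, hb0, h0⟩ := hF.prod n0
  have hb0C : b0 ∉ C := fun h => hn0' ⟨a0, ha0, b0, h, h0⟩
  have hd : derivedSeries (G ⧸ N) 2 = ⊥ := by
    apply ito (A := A.map (QuotientGroup.mk' N)) (B := C.map (QuotientGroup.mk' N))
    · intro q
      induction q using QuotientGroup.induction_on with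
      | H g =>
        obtain ⟨a, ha, b, hb, rfl⟩ := hF.prod g
        by_cases hbC : b ∈ C
        · exact ⟨_, Subgroup.mem_map_of_mem _ ha, _, Subgroup.mem_map_of_mem _ hbC, rfl⟩
        · have h1 : b0⁻¹ * b ∈ C := hF.index _ (B.inv_mem hb0) _ hb
            (fun h => hb0C (by simpa using C.inv_mem h)) hbC
          refine ⟨_, Subgroup.mem_map_of_mem _ (A.mul_mem ha (A.inv_mem ha0)), _,
            Subgroup.mem_map_of_mem _ h1, ?_⟩
          rw [← map_mul, QuotientGroup.mk'_apply, QuotientGroup.eq]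
          have e : (a * a0⁻¹ * (b0⁻¹ * b))⁻¹ * (a * b)
              = (b0⁻¹ * b)⁻¹ * (a0 * b0) * (b0⁻¹ * b) := by group
          rw [e, h0]
          have := Subgroup.Normal.conj_mem ‹_› n0 hn0 (b0⁻¹ * b)⁻¹
          rwa [inv_inv] at this
    · rintro _ ⟨x, hx, rfl⟩ _ ⟨y, hy, rfl⟩
      rw [← map_mul, ← map_mul, hF.commA x hx y hy]
    · rintro _ ⟨x, hx, rfl⟩ _ ⟨y, hy, rfl⟩
      rw [← map_mul, ← map_mul, hF.commC x hx y hy]
  have hm := map_derivedSeries_eq (QuotientGroup.mk'_surjective N) 2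
  rw [hd, Subgroup.map_eq_bot_iff, QuotientGroup.ker_mk'] at hm
  exact hm

end

/-- the quotient of a factorised group -/
theorem Fac.quot (hF : Fac A B C) (N : Subgroup G) [N.Normal] :
    Fac (A.map (QuotientGroup.mk' N)) (B.map (QuotientGroup.mk' N))
      (C.map (QuotientGroup.mk' N)) where
  prod := by
    intro q
    induction q using QuotientGroup.induction_on with
    | H g =>
      obtain ⟨a, ha, b, hb, rfl⟩ := hF.prod g
      exact ⟨_, Subgroup.mem_map_of_mem _ ha, _, Subgroup.mem_map_of_mem _ hb, rfl⟩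
  commA := by
    rintro _ ⟨x, hx, rfl⟩ _ ⟨y, hy, rfl⟩
    rw [← map_mul, ← map_mul, hF.commA x hx y hy]
  le := Subgroup.map_mono hF.le
  commC := by
    rintro _ ⟨x, hx, rfl⟩ _ ⟨y, hy, rfl⟩
    rw [← map_mul, ← map_mul, hF.commC x hx y hy]
  index := by
    rintro _ ⟨x, hx, rfl⟩ _ ⟨y, hy, rfl⟩ hxC hyC
    rw [← map_mul]
    exact Subgroup.mem_map_of_mem _ (hF.index x hx y hy
      (fun h => hxC (Subgroup.mem_map_of_mem _ h)) (fun h => hyC (Subgroup.mem_map_of_mem _ h)))

/-- Theorem: `G = AB`, `A` abelian, `B` with an abelian subgroup of index at most two: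
`G` is soluble of derived length at most five. -/
theorem Fac.derived5 (hF : Fac A B C) : derivedSeries G 5 = ⊥ := by
  by_cases hne : ∃ g : G, ¬ InP A C g
  swap
  · push Not at hne
    have h2 : derivedSeries G 2 = ⊥ := ito hne hF.commA hF.commC
    rw [eq_bot_iff, ← h2]
    exact derivedSeries_antitone G (by norm_num)
  set S := (HH A C).normalCore with hS
  have hQ : derivedSeries (G ⧸ S) 3 = ⊥ := by
    by_cases hT : ∀ x ∈ derivedSeries (G ⧸ S) 2, ∀ y ∈ derivedSeries (G ⧸ S) 2, x * y = y * x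
    · rw [derivedSeries_succ, eq_bot_iff, Subgroup.commutator_le]
      intro x hx y hy
      rw [Subgroup.mem_bot, commutatorElement_eq_one_iff_mul_comm]
      exact hT x hx y hy
    · exfalso
      have hmin : ∀ N : Subgroup (G ⧸ S), N.Normal → N ≠ ⊥ → derivedSeries (G ⧸ S) 2 ≤ N := by
        intro N hN hNb
        have h1 : derivedSeries G 2 ≤ N.comap (QuotientGroup.mk' S) := by
          apply derived_le hF
          intro hle
          apply hNb
          rw [eq_bot_iff]
          intro x hx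
          obtain ⟨g, rfl⟩ := QuotientGroup.mk'_surjective S x
          have h2 : g ∈ S := hle (Subgroup.mem_comap.2 hx)
          rw [Subgroup.mem_bot, QuotientGroup.mk'_apply, QuotientGroup.eq_one_iff]
          exact h2
        rw [← map_derivedSeries_eq (QuotientGroup.mk'_surjective S) 2, Subgroup.map_le_iff_le_comap]
        exact h1
      have hP1 : P1 (G ⧸ S) := by
        intro N hN hNb g hg
        by_contra hg1
        apply hT
        have hc : derivedSeries (G ⧸ S) 2 ≤ Subgroup.centralizer (N : Set (G ⧸ S)) := by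
          apply hmin _ inferInstance
          intro hb
          apply hg1
          have : g ∈ Subgroup.centralizer (N : Set (G ⧸ S)) := by
            rw [Subgroup.mem_centralizer_iff]
            intro n hn
            exact (hg n hn).symm
          rw [hb, Subgroup.mem_bot] at this
          exact this
        intro x hx y hy
        have h1 := hc hy
        rw [Subgroup.mem_centralizer_iff] at h1
        exact h1 x (hmin N hN hNb hx)
      apply hT
      intro x _ y _
      rw [main hP1 (hF.quot S) x, main hP1 (hF.quot S) y]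
  have h3 : derivedSeries G 3 ≤ S := by
    have hm := map_derivedSeries_eq (QuotientGroup.mk'_surjective S) 3
    rw [hQ, Subgroup.map_eq_bot_iff, QuotientGroup.ker_mk'] at hm
    exact hm
  have h4 : derivedSeries G 3 ≤ HH A C := h3.trans (Subgroup.normalCore_le _)
  have h5 : derivedSeries (HH A C) 2 = ⊥ :=
    ito_local (fun g hg => HH_sub hg) C_le_HH hF.commA hF.commC
  have h6 : (derivedSeries (HH A C) 2).map (HH A C).subtype
      = ⁅⁅HH A C, HH A C⁆, ⁅HH A C, HH A C⁆⁆ := by
    rw [derivedSeries_succ, derivedSeries_succ, derivedSeries_zero, Subgroup.map_commutator,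
      Subgroup.map_commutator, ← MonoidHom.range_eq_map, Subgroup.range_subtype]
  rw [h5, Subgroup.map_bot] at h6
  rw [eq_bot_iff, h6, derivedSeries_succ, derivedSeries_succ]
  exact Subgroup.commutator_mono (Subgroup.commutator_mono h4 h4) (Subgroup.commutator_mono h4 h4)

end Pool.Agent.helper45.AB2
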