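import Pool.Agent.helper45.AB2.Rel

/-!
# A nontrivial centre of `B` is impossible
-/

set_option autoImplicit false

namespace Pool.Agent.helper45.AB2

universe u

variable {G : Type u} [Group G] {A B C : Subgroup G}

/-- three proper subgroups that cover an abelian group have index two (Scorza) -/
theorem scorza (A P Q R : Subgroup G)
    (hP : P ≤ A) (hQ : Q ≤ A) (hR : R ≤ A)
    (hc : ∀ a ∈ A, a ∈ P ∨ a ∈ Q ∨ a ∈ R)
    (hP' : ∃ a ∈ A, a ∉ P) (hQ' : ∃ a ∈ A, a ∉ Q) (hR' : ∃ a ∈ A, a ∉ R) :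
    ∀ g ∈ A, ∀ h ∈ A, g ∉ P → h ∉ P → g⁻¹ * h ∈ P := by
  -- two proper subgroups never cover
  have two : ∀ X Y : Subgroup G, X ≤ A → Y ≤ A → (∃ a ∈ A, a ∉ X) → (∃ a ∈ A, a ∉ Y) →
      ∃ a ∈ A, a ∉ X ∧ a ∉ Y := by
    rintro X Y hX hY ⟨a, ha, haX⟩ ⟨b, hb, hbY⟩
    by_contra hcon
    push Not at hcon
    have haY := hcon a ha haX
    have hbX : b ∈ X := by
      by_contra h
      exact hbY (hcon b hb h)
    have hab := hcon (a * b) (A.mul_mem ha hb) (fun h => haX (by
      have := X.mul_mem h (X.inv_mem hbX)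
      simpa using this))
    apply hbY
    have := Y.mul_mem (Y.inv_mem haY) hab
    simpa [← mul_assoc] using this
  obtain ⟨p, hpA, hpQ, hpR⟩ := two Q R hQ hR hQ' hR'
  have hpP : p ∈ P := by
    rcases hc p hpA with h | h | h
    · exact h
    · exact absurd h hpQ
    · exact absurd h hpR
  obtain ⟨q, hqA, hqP, hqR⟩ := two P R hP hR hP' hR'
  have s1 : ∀ g ∈ Q, g ∉ P → p * g ∈ R := by
    intro g hg hgP
    rcases hc (p * g) (A.mul_mem hpA (hQ hg)) with h | h | h
    · exact absurd (by have := P.mul_mem (P.inv_mem hpP) h; simpa [← mul_assoc] using this) hgP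
    · exact absurd (by have := Q.mul_mem h (Q.inv_mem hg); simpa using this) hpQ
    · exact h
  have s2 : ∀ g ∈ R, g ∉ P → p * g ∈ Q := by
    intro g hg hgP
    rcases hc (p * g) (A.mul_mem hpA (hR hg)) with h | h | h
    · exact absurd (by have := P.mul_mem (P.inv_mem hpP) h; simpa [← mul_assoc] using this) hgP
    · exact h
    · exact absurd (by have := R.mul_mem h (R.inv_mem hg); simpa using this) hpR
  have s3 : ∀ g, g ∈ Q → g ∈ R → g ∈ P := by
    intro g hgQ hgR
    by_contra hgP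
    have := s1 g hgQ hgP
    exact hpR (by have := R.mul_mem this (R.inv_mem hgR); simpa using this)
  intro g hg h hh hgP hhP
  have hgc : g ∈ Q ∨ g ∈ R := (hc g hg).resolve_left hgP
  have hhc : h ∈ Q ∨ h ∈ R := (hc h hh).resolve_left hhP
  rcases hgc with hgQ | hgR <;> rcases hhc with hhQ | hhR
  · apply s3 _ (Q.mul_mem (Q.inv_mem hgQ) hhQ)
    have := R.mul_mem (R.inv_mem (s1 g hgQ hgP)) (s1 h hhQ hhP)
    have e : (p * g)⁻¹ * (p * h) = g⁻¹ * h := by group
    rwa [e] at this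
  · rcases hc (g⁻¹ * h) (A.mul_mem (A.inv_mem hg) hh) with hx | hx | hx
    · exact hx
    · exact absurd (s3 h (by have := Q.mul_mem hgQ hx; simpa using this) hhR) hhP
    · have : g ∈ R := by
        have := R.mul_mem hhR (R.inv_mem hx)
        simpa using this
      exact absurd (s3 g hgQ this) hgP
  · rcases hc (g⁻¹ * h) (A.mul_mem (A.inv_mem hg) hh) with hx | hx | hx
    · exact hx
    · have : g ∈ Q := by
        have := Q.mul_mem hhQ (Q.inv_mem hx)
        simpa using this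
      exact absurd (s3 g this hgR) hgP
    · exact absurd (s3 h hhQ (by have := R.mul_mem hgR hx; simpa using this)) hhP
  · refine s3 _ ?_ (R.mul_mem (R.inv_mem hgR) hhR)
    have := Q.mul_mem (Q.inv_mem (s2 g hgR hgP)) (s2 h hhR hhP)
    have e : (p * g)⁻¹ * (p * h) = g⁻¹ * h := by group
    rwa [e] at this

/-- `v_x ≠ 1` for `x ≠ 1` -/
theorem vv_ne_one (h : P1 G) (hF : Fac A B C) {w x : G} (hw1 : w ≠ 1)
    (hwc : ∀ b ∈ B, b * w = w * b) (hx : x ∈ A) (hx1 : x ≠ 1) : vv w x ≠ 1 := by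
  intro hv
  apply hx1
  apply inter_AB h hF hx
  apply cent_w h hF hw1 hwc
  unfold vv at hv
  have e : x * w * x⁻¹ * w⁻¹ = (x * w) * (w * x)⁻¹ := by group
  rw [e, mul_inv_eq_one] at hv
  exact hv

/-- for `x ≠ 1` some `v_y` does not commute with `v_x` -/
theorem exists_ncomm (h : P1 G) (hF : Fac A B C) {w x : G} (hw1 : w ≠ 1)
    (hwc : ∀ b ∈ B, b * w = w * b) (hx : x ∈ A) (hx1 : x ≠ 1) :
    ∃ y ∈ A, vv w x * vv w y ≠ vv w y * vv w x := by
  by_contra hcon
  push Not at hcon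
  apply vv_ne_one h hF hw1 hwc hx hx1
  apply h.conj (d := vv w x) (vv_ne_one h hF hw1 hwc hx hx1)
  intro g
  obtain ⟨b, hb, a, ha, rfl⟩ := hF.prod' g
  have e : b * a * vv w x * (b * a)⁻¹ = (b * vv w (a * x) * b⁻¹) * (b * vv w a * b⁻¹)⁻¹ := by
    unfold vv; group
  rw [e, vv_conj hF hwc hb, vv_conj hF hwc hb]
  have h1 := hcon _ (pa_mem hF.prod (b * (a * x)))
  have h2 := hcon _ (pa_mem hF.prod (b * a))
  set p := vv w (pa hF.prod (b * (a * x)))
  set q := vv w (pa hF.prod (b * a))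
  set v := vv w x
  have h3 : v * q⁻¹ = q⁻¹ * v := by
    have e1 : v * q⁻¹ = q⁻¹ * (q * v) * q⁻¹ := by group
    rw [e1, ← h2]; group
  rw [← mul_assoc, h1, mul_assoc, h3, mul_assoc]

/-- first consequences of non-commuting -/
theorem ncomm_facts (h : P1 G) (hF : Fac A B C) {w x y : G} (hwB : w ∈ B)
    (hwc : ∀ b ∈ B, b * w = w * b) (hx : x ∈ A) (hy : y ∈ A)
    (hne : vv w x * vv w y ≠ vv w y * vv w x) :
    U hF.prod x y ∧ U hF.prod (x⁻¹ * y) x ∧ U hF.prod x x := by
  have hI : ∀ x ∈ A, x ∈ B → x = 1 := fun x hA hB => inter_AB h hF hA hB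
  have hA := hF.commA
  have hxy : x⁻¹ * y ∈ A := A.mul_mem (A.inv_mem hx) hy
  have h1 : U hF.prod x y := rel h hF hwB hwc hx hy hne
  have h2 : U hF.prod x⁻¹ (x⁻¹ * y) := by
    apply rel h hF hwB hwc (A.inv_mem hx) hxy
    intro hc
    apply hne
    have e1 : x * vv w x⁻¹ * x⁻¹ = (vv w x)⁻¹ := by unfold vv; group
    have e2 : x * vv w (x⁻¹ * y) * x⁻¹ = vv w y * (vv w x)⁻¹ := by unfold vv; group
    have e3 : (x * vv w x⁻¹ * x⁻¹) * (x * vv w (x⁻¹ * y) * x⁻¹)
        = (x * vv w (x⁻¹ * y) * x⁻¹) * (x * vv w x⁻¹ * x⁻¹) := by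
      have l : (x * vv w x⁻¹ * x⁻¹) * (x * vv w (x⁻¹ * y) * x⁻¹)
        = x * (vv w x⁻¹ * vv w (x⁻¹ * y)) * x⁻¹ := by group
      rw [l, hc]; group
    rw [e1, e2] at e3
    have e4 : vv w x * vv w y = vv w x * (vv w y * (vv w x)⁻¹ * (vv w x)⁻¹) * vv w x * vv w x := by
      group
    rw [e4, ← e3]
    group
  have h3 : U hF.prod (x⁻¹ * y) x := by
    have := U_inv hF.prod hI hA hxy (A.inv_mem hx) (U_symm hF.prod hA (A.inv_mem hx) hxy h2)
    rwa [inv_inv] at this
  refine ⟨h1, h3, ?_⟩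
  have h4 := U_inv hF.prod hI hA hx hxy (U_symm hF.prod hA hxy hx h3)
  have h5 := U_mul hF.prod hI hA hx hy (A.inv_mem hxy) h1 h4
  have e : y * (x⁻¹ * y)⁻¹ = x := by group
  rwa [e] at h5

theorem cover (h : P1 G) (hF : Fac A B C) {w x y z : G} (hwB : w ∈ B)
    (hwc : ∀ b ∈ B, b * w = w * b) (hx : x ∈ A) (hy : y ∈ A) (hz : z ∈ A)
    (hne : vv w x * vv w y ≠ vv w y * vv w x) :
    U hF.prod x z ∨ U hF.prod y z ∨ U hF.prod (x⁻¹ * y) z := by
  have hI : ∀ x ∈ A, x ∈ B → x = 1 := fun x hA hB => inter_AB h hF hA hB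
  have hA := hF.commA
  have hxy : x⁻¹ * y ∈ A := A.mul_mem (A.inv_mem hx) hy
  have hxz : x⁻¹ * z ∈ A := A.mul_mem (A.inv_mem hx) hz
  by_cases c1 : vv w x * vv w z = vv w z * vv w x
  swap
  · left; exact rel h hF hwB hwc hx hz c1
  by_cases c2 : vv w y * vv w z = vv w z * vv w y
  swap
  · right; left; exact rel h hF hwB hwc hy hz c2
  right; right
  obtain ⟨-, h3, -⟩ := ncomm_facts h hF hwB hwc hx hy hne
  have h4 : U hF.prod (x⁻¹ * y) (x⁻¹ * z) := by
    apply rel h hF hwB hwc hxy hxz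
    intro hc
    apply hne
    have e1 : x * vv w (x⁻¹ * z) * x⁻¹ = vv w z * (vv w x)⁻¹ := by unfold vv; group
    have e2 : x * vv w (x⁻¹ * y) * x⁻¹ = vv w y * (vv w x)⁻¹ := by unfold vv; group
    have e3 : (x * vv w (x⁻¹ * y) * x⁻¹) * (x * vv w (x⁻¹ * z) * x⁻¹)
        = (x * vv w (x⁻¹ * z) * x⁻¹) * (x * vv w (x⁻¹ * y) * x⁻¹) := by
      have l : (x * vv w (x⁻¹ * y) * x⁻¹) * (x * vv w (x⁻¹ * z) * x⁻¹)
        = x * (vv w (x⁻¹ * y) * vv w (x⁻¹ * z)) * x⁻¹ := by group
      rw [l, hc]; group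
    rw [e1, e2] at e3
    set p := vv w x
    set q := vv w y
    set r := vv w z
    have e4 : q * p⁻¹ * r = r * p⁻¹ * q := by
      have l1 : q * p⁻¹ * r = (q * p⁻¹ * (r * p⁻¹)) * p := by group
      rw [l1, e3]; group
    have e5 : p⁻¹ * r = r * p⁻¹ := by
      have : p⁻¹ * r = p⁻¹ * (r * p) * p⁻¹ := by group
      rw [this, ← c1]; group
    have e6 : q * p⁻¹ * r = p⁻¹ * q * r := by
      rw [e4, ← e5, mul_assoc, ← c2, mul_assoc]
    have e7 : q * p⁻¹ = p⁻¹ * q := mul_right_cancel e6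
    have e8 : p * q = p * (q * p⁻¹) * p := by group
    rw [e8, e7]; group
  have h5 := U_mul hF.prod hI hA hxy hx hxz h3 h4
  have e : x * (x⁻¹ * z) = z := by group
  rwa [e] at h5

/-- the radical of `U` is trivial -/
theorem radical (h : P1 G) (hF : Fac A B C) {x : G} (hx : x ∈ A)
    (hU : ∀ y ∈ A, U hF.prod x y) : x = 1 := by
  have hI : ∀ x ∈ A, x ∈ B → x = 1 := fun x hA hB => inter_AB h hF hA hB
  have hA := hF.commA
  let V : Subgroup G :=
    { carrier := {x | x ∈ A ∧ ∀ y ∈ A, U hF.prod x y}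
      one_mem' := ⟨A.one_mem, fun y hy => U_symm hF.prod hA hy A.one_mem (U_one hF.prod hI)⟩
      mul_mem' := by
        rintro a b ⟨ha, ha'⟩ ⟨hb, hb'⟩
        exact ⟨A.mul_mem ha hb, fun y hy => U_symm hF.prod hA hy (A.mul_mem ha hb)
          (U_mul hF.prod hI hA hy ha hb (U_symm hF.prod hA ha hy (ha' y hy))
            (U_symm hF.prod hA hb hy (hb' y hy)))⟩
      inv_mem' := by
        rintro a ⟨ha, ha'⟩
        exact ⟨A.inv_mem ha, fun y hy => U_symm hF.prod hA hy (A.inv_mem ha)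
          (U_inv hF.prod hI hA hy ha (U_symm hF.prod hA ha hy (ha' y hy)))⟩ }
  have hVm : ∀ x, x ∈ V ↔ (x ∈ A ∧ ∀ y ∈ A, U hF.prod x y) := fun x => Iff.rfl
  have hVn : V.Normal := by
    constructor
    intro v hv g
    rw [hVm] at hv ⊢
    obtain ⟨hvA, hv⟩ := hv
    obtain ⟨b, hb, a, ha, rfl⟩ := hF.prod' g
    have e1 : b * a * v * (b * a)⁻¹ = b * v * b⁻¹ := by
      have := hA a ha v hvA
      have e : b * a * v * (b * a)⁻¹ = b * (a * v) * a⁻¹ * b⁻¹ := by group
      rw [e, this]; group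
    have e2 : pb hF.prod (b * v) = b := by
      have hk : b⁻¹ * pb hF.prod (b * v) = 1 := by
        apply core_B h hF
        intro g
        obtain ⟨b', hb', y, hy, rfl⟩ := hF.prod' g
        have hyv := (U_iff hF.prod hI).1 (hv y⁻¹ (A.inv_mem hy)) b hb
        have hm : y * (b⁻¹ * pb hF.prod (b * v)) * y⁻¹ ∈ B := by
          have e3 : y * (b⁻¹ * pb hF.prod (b * v)) * y⁻¹
              = (pb hF.prod (b * y⁻¹))⁻¹ * pb hF.prod (pb hF.prod (b * v) * y⁻¹) := by
            rw [pb_eq hF.prod (b * y⁻¹), pb_eq hF.prod (pb hF.prod (b * v) * y⁻¹), hyv]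
            group
          rw [e3]
          exact B.mul_mem (B.inv_mem (pb_mem _ _)) (pb_mem _ _)
        have e4 : b' * y * (b⁻¹ * pb hF.prod (b * v)) * (b' * y)⁻¹
            = b' * (y * (b⁻¹ * pb hF.prod (b * v)) * y⁻¹) * b'⁻¹ := by group
        rw [e4]
        exact B.mul_mem (B.mul_mem hb' hm) (B.inv_mem hb')
      exact (inv_mul_eq_one.1 hk).symm
    have e3 : b * v * b⁻¹ = pa hF.prod (b * v) := by
      have := pa_mul_pb hF.prod (b * v)
      rw [e2] at this
      exact mul_inv_eq_of_eq_mul this.symm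
    rw [e1, e3]
    refine ⟨pa_mem _ _, fun y hy => ?_⟩
    have := U_conj hF.prod hI hb (hv _ (pa_mem hF.prod (b⁻¹ * y)))
    rwa [pa_pa_inv hF.prod hI b hy] at this
  have hV : V = ⊥ := h.abelian V hVn (fun x hx y hy => hA x hx.1 y hy.1)
  have : x ∈ V := ⟨hx, hU⟩
  rw [hV, Subgroup.mem_bot] at this
  exact this

/-- `B` has trivial centre -/
theorem caseB (h : P1 G) (hF : Fac A B C) {w : G} (hwB : w ∈ B)
    (hwc : ∀ b ∈ B, b * w = w * b) : w = 1 := by
  by_contra hw1
  have hI : ∀ x ∈ A, x ∈ B → x = 1 := fun x hA hB => inter_AB h hF hA hB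
  have hA := hF.commA
  -- the subgroups
  let UU : ∀ x ∈ A, Subgroup G := fun x hx =>
    { carrier := {y | y ∈ A ∧ U hF.prod x y}
      one_mem' := ⟨A.one_mem, U_one hF.prod hI⟩
      mul_mem' := by
        rintro a b ⟨ha, ha'⟩ ⟨hb, hb'⟩
        exact ⟨A.mul_mem ha hb, U_mul hF.prod hI hA hx ha hb ha' hb'⟩
      inv_mem' := by
        rintro a ⟨ha, ha'⟩
        exact ⟨A.inv_mem ha, U_inv hF.prod hI hA hx ha ha'⟩ }
  have hUU : ∀ x (hx : x ∈ A) y, y ∈ UU x hx ↔ (y ∈ A ∧ U hF.prod x y) := fun _ _ _ => Iff.rfl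
  have hproper : ∀ x (hx : x ∈ A), x ≠ 1 → ∃ a ∈ A, a ∉ UU x hx := by
    intro x hx hx1
    by_contra hcon
    push Not at hcon
    exact hx1 (radical h hF hx (fun y hy => (hcon y hy).2))
  -- index two
  have idx : ∀ x ∈ A, ∀ z ∈ A, ∀ z' ∈ A, ¬ U hF.prod x z → ¬ U hF.prod x z' →
      U hF.prod x (z * z') := by
    intro x hx z hz z' hz' hn hn'
    have hx1 : x ≠ 1 := by
      rintro rfl
      exact hn (U_symm hF.prod hA hz A.one_mem (U_one hF.prod hI))
    obtain ⟨y, hy, hne⟩ := exists_ncomm h hF hw1 hwc hx hx1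
    have hxy : x⁻¹ * y ∈ A := A.mul_mem (A.inv_mem hx) hy
    have hy1 : y ≠ 1 := by
      rintro rfl
      apply hne
      unfold vv
      group
    have hxy1 : x⁻¹ * y ≠ 1 := by
      intro hc
      rw [inv_mul_eq_one] at hc
      subst hc
      exact hne rfl
    have sc := scorza A (UU x hx) (UU y hy) (UU _ hxy) (fun a ha => ha.1) (fun a ha => ha.1)
      (fun a ha => ha.1) (by
        intro a ha
        rcases cover h hF hwB hwc hx hy ha hne with hc | hc | hc
        · exact Or.inl ⟨ha, hc⟩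
        · exact Or.inr (Or.inl ⟨ha, hc⟩)
        · exact Or.inr (Or.inr ⟨ha, hc⟩)) (hproper x hx hx1) (hproper y hy hy1)
        (hproper _ hxy hxy1) z⁻¹ (A.inv_mem hz) z' hz' (by
          intro hc
          apply hn
          have := (UU x hx).inv_mem hc
          rw [inv_inv] at this
          exact this.2) (fun hc => hn' hc.2)
    rw [inv_inv] at sc
    exact sc.2
  have sq : ∀ z ∈ A, z * z = 1 := by
    intro z hz
    apply radical h hF (A.mul_mem hz hz)
    intro x hx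
    apply U_symm hF.prod hA hx (A.mul_mem hz hz)
    by_cases hc : U hF.prod x z
    · exact U_mul hF.prod hI hA hx hz hz hc hc
    · exact idx x hx z hz z hz hc hc
  have self : ∀ x ∈ A, U hF.prod x x := by
    intro x hx
    by_cases hx1 : x = 1
    · subst hx1; exact U_one hF.prod hI
    · obtain ⟨y, hy, hne⟩ := exists_ncomm h hF hw1 hwc hx hx1
      exact (ncomm_facts h hF hwB hwc hx hy hne).2.2
  -- the form
  classical
  let β : G → G → ZMod 2 := fun x y => if U hF.prod x y then 0 else 1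
  have β0 : ∀ x y, β x y = 0 ↔ U hF.prod x y := by
    intro x y
    simp only [β]
    split_ifs with hc
    · simp [hc]
    · simp [hc]
  have β1 : ∀ x y, ¬ U hF.prod x y → β x y = 1 := by
    intro x y hc
    simp only [β]
    rw [if_neg hc]
  have βmul : ∀ x ∈ A, ∀ y ∈ A, ∀ z ∈ A, β x (y * z) = β x y + β x z := by
    intro x hx y hy z hz
    by_cases h1 : U hF.prod x y <;> by_cases h2 : U hF.prod x z
    · rw [(β0 _ _).2 h1, (β0 _ _).2 h2, (β0 _ _).2 (U_mul hF.prod hI hA hx hy hz h1 h2)]; rfl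
    · have h3 : ¬ U hF.prod x (y * z) := by
        intro hc
        apply h2
        have := U_mul hF.prod hI hA hx (A.inv_mem hy) (A.mul_mem hy hz)
          (U_inv hF.prod hI hA hx hy h1) hc
        have e : y⁻¹ * (y * z) = z := by group
        rwa [e] at this
      rw [(β0 _ _).2 h1, β1 _ _ h2, β1 _ _ h3]; rfl
    · have h3 : ¬ U hF.prod x (y * z) := by
        intro hc
        apply h1
        have := U_mul hF.prod hI hA hx (A.mul_mem hy hz) (A.inv_mem hz) hc
          (U_inv hF.prod hI hA hx hz h2)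
        have e : y * z * z⁻¹ = y := by group
        rwa [e] at this
      rw [(β0 _ _).2 h2, β1 _ _ h1, β1 _ _ h3]; rfl
    · rw [β1 _ _ h1, β1 _ _ h2, (β0 _ _).2 (idx x hx y hy z hz h1 h2)]; rfl
  have βsymm : ∀ x ∈ A, ∀ y ∈ A, β x y = β y x := by
    intro x hx y hy
    by_cases h1 : U hF.prod x y
    · rw [(β0 _ _).2 h1, (β0 _ _).2 (U_symm hF.prod hA hx hy h1)]
    · have h2 : ¬ U hF.prod y x := fun hc => h1 (U_symm hF.prod hA hy hx hc)
      rw [β1 _ _ h1, β1 _ _ h2]
  have βself : ∀ x ∈ A, β x x = 0 := fun x hx => (β0 _ _).2 (self x hx)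
  have βconj : ∀ b ∈ B, ∀ x ∈ A, ∀ y ∈ A,
      β (pa hF.prod (b * x)) (pa hF.prod (b * y)) = β x y := by
    intro b hb x hx y hy
    by_cases h1 : U hF.prod x y
    · rw [(β0 _ _).2 h1, (β0 _ _).2 (U_conj hF.prod hI hb h1)]
    · have h2 : ¬ U hF.prod (pa hF.prod (b * x)) (pa hF.prod (b * y)) := by
        intro hc
        apply h1
        have := U_conj hF.prod hI (B.inv_mem hb) hc
        rwa [pa_inv_pa hF.prod hI b hx, pa_inv_pa hF.prod hI b hy] at this
      rw [β1 _ _ h1, β1 _ _ h2]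
  have βrad : ∀ x ∈ A, (∀ y ∈ A, β x y = 0) → x = 1 := by
    intro x hx hy
    exact radical h hF hx (fun y hyA => (β0 _ _).1 (hy y hyA))
  -- all pairs are in `U`
  have all : ∀ x ∈ A, ∀ y ∈ A, U hF.prod x y := by
    intro x hx y hy
    by_contra hn
    apply hn
    intro b hb
    have hxy := A.mul_mem hx hy
    set x' := pa hF.prod (b * x) with hx'
    set y' := pa hF.prod (b * y) with hy'
    set z := pa hF.prod (b * (x * y)) with hz
    have mx : x' ∈ A := pa_mem _ _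
    have my : y' ∈ A := pa_mem _ _
    have mz : z ∈ A := pa_mem _ _
    have mxy : x' * y' ∈ A := A.mul_mem mx my
    have key : z * (x' * y') = 1 := by
      apply βrad _ (A.mul_mem mz mxy)
      intro u hu
      have bxy : β x' y' = 1 := by rw [hx', hy', βconj b hb x hx y hy]; exact β1 _ _ hn
      have bzx : β z x' = 1 := by
        rw [hx', hz, βconj b hb _ hxy x hx, βsymm _ hxy _ hx, βmul x hx x hx y hy, βself x hx,
          β1 _ _ hn]; rfl
      have bzy : β z y' = 1 := by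
        rw [hy', hz, βconj b hb _ hxy y hy, βsymm _ hxy _ hy, βmul y hy x hx y hy, βself y hy,
          βsymm y hy x hx, β1 _ _ hn]; rfl
      have orth : ∀ t ∈ A, β x' t = 0 → β y' t = 0 → β z t = 0 := by
        intro t ht h1 h2
        have e : t = pa hF.prod (b * pa hF.prod (b⁻¹ * t)) := (pa_pa_inv hF.prod hI b ht).symm
        set s := pa hF.prod (b⁻¹ * t) with hs
        have ms : s ∈ A := pa_mem _ _
        rw [e, hx', βconj b hb x hx s ms] at h1
        rw [e, hy', βconj b hb y hy s ms] at h2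
        rw [e, hz, βconj b hb _ hxy s ms, βsymm _ hxy _ ms, βmul s ms x hx y hy, βsymm s ms x hx,
          βsymm s ms y hy, h1, h2]; rfl
      rw [βsymm _ (A.mul_mem mz mxy) _ hu, βmul u hu z mz _ mxy, βmul u hu x' mx y' my,
        βsymm u hu z mz, βsymm u hu x' mx, βsymm u hu y' my]
      have bx : β x' x' = 0 := βself _ mx
      have byy : β y' y' = 0 := βself _ my
      have byx : β y' x' = 1 := by rw [βsymm _ my _ mx]; exact bxy
      have z2 : ∀ t : ZMod 2, t = 0 ∨ t = 1 := by decide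
      rcases z2 (β x' u) with hp | hp <;> rcases z2 (β y' u) with hq | hq
      · rw [orth u hu hp hq, hp, hq]; rfl
      · have h1 : β x' (u * x') = 0 := by rw [βmul _ mx u hu x' mx, hp, bx]; rfl
        have h2 : β y' (u * x') = 0 := by rw [βmul _ my u hu x' mx, hq, byx]; rfl
        have h3 := orth _ (A.mul_mem hu mx) h1 h2
        rw [βmul _ mz u hu x' mx, bzx] at h3
        rw [hp, hq, zero_add, h3]
      · have h1 : β x' (u * y') = 0 := by rw [βmul _ mx u hu y' my, hp, bxy]; rfl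
        have h2 : β y' (u * y') = 0 := by rw [βmul _ my u hu y' my, hq, byy]; rfl
        have h3 := orth _ (A.mul_mem hu my) h1 h2
        rw [βmul _ mz u hu y' my, bzy] at h3
        rw [hp, hq, add_zero, h3]
      · have h1 : β x' (u * (x' * y')) = 0 := by
          rw [βmul _ mx u hu _ mxy, βmul _ mx x' mx y' my, hp, bx, bxy]; rfl
        have h2 : β y' (u * (x' * y')) = 0 := by
          rw [βmul _ my u hu _ mxy, βmul _ my x' mx y' my, hq, byx, byy]; rfl
        have h3 := orth _ (A.mul_mem hu mxy) h1 h2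
        rw [βmul _ mz u hu _ mxy, βmul _ mz x' mx y' my, bzx, bzy] at h3
        have e : (1 : ZMod 2) + 1 = 0 := rfl
        rw [e, add_zero] at h3
        rw [hp, hq, h3]; rfl
    have e1 : z * (x' * y') = (x' * y') * (x' * y') := by rw [key, sq _ mxy]
    exact mul_right_cancel e1
  -- so `A = 1`
  have hA1 : ∀ a ∈ A, a = 1 := fun a ha => radical h hF ha (fun y hy => all a ha y hy)
  apply hw1
  apply center_trivial h
  intro g
  obtain ⟨a, ha, b, hb, rfl⟩ := hF.prod g
  rw [hA1 a ha, one_mul]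
  exact (hwc b hb).symm

end Pool.Agent.helper45.AB2
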