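import Pool.Agent.helper45.AB2.Alg

/-!
# The case of a trivial centre of `B`: local facts
-/

set_option autoImplicit false

namespace Pool.Agent.helper45.AB2

universe u

variable {G : Type u} [Group G] {A B C : Subgroup G}

/-- some element of `B` is outside `C` (unless `G = 1`) -/
theorem exists_not_mem (h : P1 G) (hF : Fac A B C) (hne : ∃ g : G, g ≠ 1) :
    ∃ t ∈ B, t ∉ C := by
  by_contra hcon
  push Not at hcon
  obtain ⟨g, hg⟩ := hne
  apply hg
  have hB : ∀ b ∈ B, b = 1 := fun b hb => caseB h hF hb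
    (fun b' hb' => hF.commC _ (hcon _ hb') _ (hcon _ hb))
  have hA : ∀ g : G, g ∈ A := by
    intro g
    obtain ⟨a, ha, b, hb, rfl⟩ := hF.prod g
    rw [hB b hb, mul_one]
    exact ha
  exact center_trivial h (fun k => hF.commA _ (hA g) _ (hA k))

theorem exists_A (h : P1 G) (hF : Fac A B C) (hne : ∃ g : G, g ≠ 1) :
    ∃ x ∈ A, x ≠ 1 := by
  by_contra hcon
  push Not at hcon
  obtain ⟨g, hg⟩ := hne
  apply hg
  apply core_B h hF
  intro k
  obtain ⟨a, ha, b, hb, hk⟩ := hF.prod (k * g * k⁻¹)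
  rw [hcon a ha, one_mul] at hk
  rw [← hk]
  exact hb

/-- elements outside `C` invert `C` -/
theorem inverts (h : P1 G) (hF : Fac A B C) {s c : G} (hs : s ∈ B) (hsC : s ∉ C) (hc : c ∈ C) :
    s⁻¹ * c * s = c⁻¹ := by
  have hm : s⁻¹ * c * s ∈ C := hF.conj_mem' hs hc
  have h1 : c * (s⁻¹ * c * s) = 1 := by
    apply caseB h hF (hF.le (C.mul_mem hc hm))
    intro b hb
    by_cases hbC : b ∈ C
    · exact hF.commC _ hbC _ (C.mul_mem hc hm)
    · have e1 := hF.conj_eq hb hs hbC hsC hc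
      have e2 := hF.conj_eq hb hs hbC hsC hm
      have e3 := hF.conj_conj hs hsC hc
      have e4 : b⁻¹ * (c * (s⁻¹ * c * s)) * b = (b⁻¹ * c * b) * (b⁻¹ * (s⁻¹ * c * s) * b) := by
        group
      rw [e1, e2, e3] at e4
      have e5 := hF.commC _ hm _ hc
      rw [e5] at e4
      have e6 : b * (c * (s⁻¹ * c * s)) = b * (b⁻¹ * (c * (s⁻¹ * c * s)) * b) := by rw [e4]
      rw [e6]
      group
  exact (eq_inv_of_mul_eq_one_right h1)

theorem sq_one (h : P1 G) (hF : Fac A B C) {s : G} (hs : s ∈ B) (hsC : s ∉ C) : s * s = 1 := by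
  have hm : s * s ∈ C := hF.index _ hs _ hs hsC hsC
  apply caseB h hF (hF.le hm)
  intro b hb
  by_cases hbC : b ∈ C
  · exact hF.commC _ hbC _ hm
  · have e1 := hF.conj_eq hb hs hbC hsC hm
    have e2 : b * (s * s) = b * (s⁻¹ * (s * s) * s) := by group
    rw [e2, ← e1]
    group

theorem inv_eq (h : P1 G) (hF : Fac A B C) {s : G} (hs : s ∈ B) (hsC : s ∉ C) : s⁻¹ = s :=
  inv_eq_of_mul_eq_one_right (sq_one h hF hs hsC)

theorem no_inv (h : P1 G) (hF : Fac A B C) {c : G} (hc : c ∈ C) (hcc : c * c = 1) : c = 1 := by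
  have hci : c⁻¹ = c := inv_eq_of_mul_eq_one_right hcc
  apply caseB h hF (hF.le hc)
  intro b hb
  by_cases hbC : b ∈ C
  · exact hF.commC _ hbC _ hc
  · have e := inverts h hF hb hbC hc
    rw [hci] at e
    have : b * c = b * (b⁻¹ * c * b) := by rw [e]
    rw [this]; group

theorem all_Dm (h : P1 G) (hF : Fac A B C) {c : G} (hc : c ∈ C) : Dm B C c :=
  ⟨hc, fun _ hs hsC => inverts h hF hs hsC hc⟩

theorem TI' (h : P1 G) (hF : Fac A B C) {c g : G} (hc : c ∈ C) (hc1 : c ≠ 1)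
    (hg : g⁻¹ * c * g ∈ C) : g ∈ B :=
  TI h hF (all_Dm h hF hc) hc1 (all_Dm h hF hg)

theorem cent_c (h : P1 G) (hF : Fac A B C) {c g : G} (hc : c ∈ C) (hc1 : c ≠ 1)
    (hg : g * c = c * g) : g ∈ C := by
  have e : g⁻¹ * c * g = c := by rw [mul_assoc, ← hg]; group
  have hgB : g ∈ B := TI' h hF hc hc1 (by rw [e]; exact hc)
  by_contra hgC
  have := inverts h hF hgB hgC hc
  rw [e] at this
  apply hc1
  apply no_inv h hF hc
  nth_rewrite 1 [this]
  group

/-- `N_C(A) = 1` -/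
theorem norm_A (h : P1 G) (hF : Fac A B C) {c : G} (hc : c ∈ C)
    (h1 : ∀ x ∈ A, c * x * c⁻¹ ∈ A) (h2 : ∀ x ∈ A, c⁻¹ * x * c ∈ A) : c = 1 := by
  have pow : ∀ k : ℤ, ∀ x ∈ A, c ^ k * x * (c ^ k)⁻¹ ∈ A := by
    intro k
    induction k using Int.induction_on with
    | zero => intro x hx; simpa using hx
    | succ n ih =>
      intro x hx
      have := h1 _ (ih x hx)
      have e : c ^ ((n : ℤ) + 1) * x * (c ^ ((n : ℤ) + 1))⁻¹
          = c * (c ^ (n : ℤ) * x * (c ^ (n : ℤ))⁻¹) * c⁻¹ := by group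
      rw [e]; exact this
    | pred n ih =>
      intro x hx
      have := h2 _ (ih x hx)
      have e : c ^ (-(n : ℤ) - 1) * x * (c ^ (-(n : ℤ) - 1))⁻¹
          = c⁻¹ * (c ^ (-(n : ℤ)) * x * (c ^ (-(n : ℤ)))⁻¹) * c := by group
      rw [e]; exact this
  let M : Subgroup G :=
    { carrier := {g | ∃ k : ℤ, g * c ^ k ∈ A}
      one_mem' := ⟨0, by simp⟩
      mul_mem' := by
        rintro a b ⟨k, ha⟩ ⟨l, hb⟩
        refine ⟨k + l, ?_⟩
        have e : a * b * c ^ (k + l) = (a * c ^ k) * (c ^ (-k) * (b * c ^ l) * (c ^ (-k))⁻¹) := by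
          group
        rw [e]
        exact A.mul_mem ha (pow _ _ hb)
      inv_mem' := by
        rintro a ⟨k, ha⟩
        refine ⟨-k, ?_⟩
        have e : a⁻¹ * c ^ (-k) = c ^ k * (a * c ^ k)⁻¹ * (c ^ k)⁻¹ := by group
        rw [e]
        exact pow _ _ (A.inv_mem ha) }
  have hMm : ∀ g, g ∈ M ↔ ∃ k : ℤ, g * c ^ k ∈ A := fun _ => Iff.rfl
  have hMcomm : ∀ x ∈ M, ∀ y ∈ M, x * y * x⁻¹ * y⁻¹ ∈ A := by
    intro x hx y hy
    obtain ⟨k, hk⟩ := (hMm x).1 hx
    obtain ⟨l, hl⟩ := (hMm y).1 hy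
    have e : x * y * x⁻¹ * y⁻¹ = (x * c ^ k) * (c ^ (-k) * (y * c ^ l) * (c ^ (-k))⁻¹) *
        (c ^ (-l) * (x * c ^ k) * (c ^ (-l))⁻¹)⁻¹ * (y * c ^ l)⁻¹ := by
      group
    rw [e]
    exact A.mul_mem (A.mul_mem (A.mul_mem hk (pow _ _ hl)) (A.inv_mem (pow _ _ hk))) (A.inv_mem hl)
  have hN : (Subgroup.normalClosure {c}).Normal := Subgroup.normalClosure_normal
  have hcM : c ∈ M := ⟨-1, by simp⟩
  have hle : Subgroup.normalClosure {c} ≤ M := by
    rw [Subgroup.normalClosure, Subgroup.closure_le]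
    intro y hy
    rw [Group.mem_conjugatesOfSet_iff] at hy
    obtain ⟨a, ha, hy⟩ := hy
    rw [Set.mem_singleton_iff] at ha
    subst ha
    obtain ⟨g, hg⟩ := isConj_iff.1 hy
    rw [← hg]
    obtain ⟨x, hx, b, hb, rfl⟩ := hF.prod g
    have hAM : ∀ x ∈ A, x ∈ M := fun x hx => ⟨0, by simpa using hx⟩
    have hbc : b * a * b⁻¹ ∈ M := by
      by_cases hbC : b ∈ C
      · rw [hF.commC _ hbC _ hc]
        simpa using hcM
      · have hbC' : b⁻¹ ∉ C := fun hh => hbC (by simpa using C.inv_mem hh)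
        have := inverts h hF (B.inv_mem hb) hbC' hc
        rw [inv_inv] at this
        rw [this]
        exact M.inv_mem hcM
    have e : x * b * a * (x * b)⁻¹ = x * (b * a * b⁻¹) * x⁻¹ := by group
    rw [e]
    exact M.mul_mem (M.mul_mem (hAM _ hx) hbc) (M.inv_mem (hAM _ hx))
  have hb := h.metabelian _ hN (by
    intro x hx y hy z hz w hw
    exact hF.commA _ (hMcomm _ (hle hx) _ (hle hy)) _ (hMcomm _ (hle hz) _ (hle hw)))
  have : c ∈ Subgroup.normalClosure {c} := Subgroup.subset_normalClosure (Set.mem_singleton _)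
  rw [hb, Subgroup.mem_bot] at this
  exact this

end Pool.Agent.helper45.AB2
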