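import Pool.Agent.helper45.AB2.CaseC

/-!
# The case of a trivial centre of `B`: counting and contradiction
-/

set_option autoImplicit false

namespace Pool.Agent.helper45.AB2

universe u

variable {G : Type u} [Group G] {A B C : Subgroup G}

/-- `i` normalises `A` (for an involution `i`) -/
def NorA (A : Subgroup G) (i : G) : Prop := ∀ y ∈ A, i * y * i ∈ A

/-- two elements of `B \ C` that normalise `A` are equal -/
theorem norA_unique (h : P1 G) (hF : Fac A B C) {i j : G} (hi : i ∈ B) (hiC : i ∉ C)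
    (hj : j ∈ B) (hjC : j ∉ C) (hiA : NorA A i) (hjA : NorA A j) : i = j := by
  have i2 := inv_eq h hF hi hiC
  have j2 := inv_eq h hF hj hjC
  have h1 : i * j ∈ C := hF.index _ hi _ hj hiC hjC
  have h2 : i * j = 1 := by
    apply norm_A h hF h1
    · intro x hx
      have e : i * j * x * (i * j)⁻¹ = i * (j * x * j) * i := by
        rw [mul_inv_rev, i2, j2]; group
      rw [e]
      exact hiA _ (hjA _ hx)
    · intro x hx
      have e : (i * j)⁻¹ * x * (i * j) = j * (i * x * i) * j := by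
        rw [mul_inv_rev, i2, j2]; group
      rw [e]
      exact hjA _ (hiA _ hx)
  have := eq_inv_of_mul_eq_one_left h2
  rw [this, j2]

/-- the set `X_x` -/
def XX (A B C : Subgroup G) (x : G) : Set G :=
  {i | i ∈ B ∧ i ∉ C ∧ ∃ j ∈ B, j ∉ C ∧ i⁻¹ * x * j ∈ A}

/-- the key dichotomy -/
theorem dich (h : P1 G) (hF : Fac A B C) {x i j : G} (hx : x ∈ A)
    (hi : i ∈ B) (hiC : i ∉ C) (hj : j ∈ B) (hjC : j ∉ C) (hij : i⁻¹ * x * j ∈ A) :
    i = x * j * x⁻¹ ∨ NorA A i := by
  have hA := hF.commA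
  have i2 := inv_eq h hF hi hiC
  have j2 := inv_eq h hF hj hjC
  have ii := sq_one h hF hi hiC
  by_cases h1 : i = x * j * x⁻¹
  · left; exact h1
  right
  -- `a = i (x j x⁻¹)`
  obtain ⟨a, ha⟩ : ∃ a, a = i * (x * j * x⁻¹) := ⟨_, rfl⟩
  have haA : a ∈ A := by
    have := A.mul_mem hij (A.inv_mem hx)
    rw [i2] at this
    have e : a = i * x * j * x⁻¹ := by rw [ha]; group
    rw [e]; exact this
  have ha1 : a ≠ 1 := by
    intro hc
    apply h1
    rw [ha] at hc
    have := eq_inv_of_mul_eq_one_right hc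
    rw [this, i2]
  have hai : i * a * i = a⁻¹ := by
    have e : a⁻¹ = x * j⁻¹ * x⁻¹ * i⁻¹ := by rw [ha]; group
    rw [e, i2, j2, ha]
    have e2 : i * (i * (x * j * x⁻¹)) * i = (i * i) * (x * j * x⁻¹ * i) := by group
    rw [e2, ii, one_mul]
  have hai' : i * a⁻¹ * i = a := by
    rw [← hai]
    have e : i * (i * a * i) * i = (i * i) * a * (i * i) := by group
    rw [e, ii]; group
  -- elements of `C` that commute with `a` are trivial
  have hCa : ∀ c ∈ C, a * c = c * a → c = 1 := by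
    intro c hc hca
    by_contra hc1
    have := cent_c h hF hc hc1 hca
    exact ha1 (inter_AB h hF haA (hF.le this))
  intro y hy
  by_contra hm
  obtain ⟨m, hmdef⟩ : ∃ m, m = i * y * i := ⟨_, rfl⟩
  rw [← hmdef] at hm
  have hma : m * a = a * m := by
    have e1 : m * a = i * y * (i * a * i) * i⁻¹ := by rw [hmdef]; group
    rw [e1, hai, i2]
    have e2 : i * y * a⁻¹ * i = i * (y * a⁻¹) * i := by group
    rw [e2, hA _ hy _ (A.inv_mem haA)]
    have e3 : i * (a⁻¹ * y) * i = (i * a⁻¹ * i) * (i⁻¹ * y * i) := by group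
    rw [e3, hai', i2, hmdef]
  obtain ⟨α, hα, n, hn, hmn⟩ := hF.prod m
  have hna : a * n = n * a := by
    have e1 : n = α⁻¹ * m := by rw [← hmn]; group
    rw [e1]
    calc a * (α⁻¹ * m) = (a * α⁻¹) * m := by rw [mul_assoc]
      _ = (α⁻¹ * a) * m := by rw [hA _ haA _ (A.inv_mem hα)]
      _ = α⁻¹ * (a * m) := by rw [mul_assoc]
      _ = α⁻¹ * (m * a) := by rw [hma]
      _ = α⁻¹ * m * a := by rw [mul_assoc]
  have hn1 : n ≠ 1 := by
    rintro rfl
    apply hm
    rw [← hmn, mul_one]; exact hα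
  have hnC : n ∉ C := fun hc => hn1 (hCa n hc hna)
  have n2 := inv_eq h hF hn hnC
  have nn := sq_one h hF hn hnC
  -- any element of `B` commuting with `a` is `1` or `n`
  have huniq : ∀ k ∈ B, a * k = k * a → k = 1 ∨ k = n := by
    intro k hk hka
    by_cases hkC : k ∈ C
    · left; exact hCa k hkC hka
    · right
      have h2 : n * k ∈ C := hF.index _ hn _ hk hnC hkC
      have h3 : n * k = 1 := hCa _ h2 (by
        rw [← mul_assoc, hna, mul_assoc, hka, mul_assoc])
      have := eq_inv_of_mul_eq_one_right h3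
      rw [this, n2]
  have hnA : NorA A n := by
    intro y' hy'
    obtain ⟨α', hα', n', hn', hmn'⟩ := hF.prod (n * y' * n)
    have h2 : a * n' = n' * a := by
      have e1 : n' = α'⁻¹ * (n * y' * n) := by rw [← hmn']; group
      rw [e1]
      calc a * (α'⁻¹ * (n * y' * n)) = (a * α'⁻¹) * (n * y' * n) := by group
        _ = α'⁻¹ * (a * n) * y' * n := by rw [hA _ haA _ (A.inv_mem hα')]; group
        _ = α'⁻¹ * n * (a * y') * n := by rw [hna]; group
        _ = α'⁻¹ * n * y' * (a * n) := by rw [hA _ haA _ hy']; group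
        _ = α'⁻¹ * (n * y' * n) * a := by rw [hna]; group
    rcases huniq n' hn' h2 with h3 | h3
    · rw [h3, mul_one] at hmn'
      rw [← hmn']; exact hα'
    · exfalso
      rw [h3] at hmn'
      have h4 := mul_right_cancel hmn'
      have h5 : n ∈ A := by
        have e : n = α' * y'⁻¹ := by rw [h4]; group
        rw [e]
        exact A.mul_mem hα' (A.inv_mem hy')
      exact hn1 (inter_AB h hF h5 hn)
  -- `i` and `n` commute
  have hini : i * n * i = n := by
    have h2 : a * (i * n * i) = (i * n * i) * a := by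
      have e1 : (i * n * i) * a = i * n * (i * a * i) * i⁻¹ := by group
      rw [e1, hai, i2]
      have h3 : n * a⁻¹ = a⁻¹ * n := by
        have : n * a⁻¹ = a⁻¹ * (a * n) * a⁻¹ := by group
        rw [this, hna]; group
      have e2 : i * n * a⁻¹ * i = i * (n * a⁻¹) * i := by group
      rw [e2, h3]
      have e3 : i * (a⁻¹ * n) * i = (i * a⁻¹ * i) * (i⁻¹ * n * i) := by group
      rw [e3, hai', i2]
    rcases huniq _ (B.mul_mem (B.mul_mem hi hn) hi) h2 with h3 | h3
    · exfalso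
      apply hn1
      have e : n = i⁻¹ * (i * n * i) * i⁻¹ := by group
      rw [e, h3, i2, mul_one, ii]
    · exact h3
  have hinC : i * n ∈ C := hF.index _ hi _ hn hiC hnC
  have hinv := inverts h hF hi hiC hinC
  have h6 : i * n = 1 := by
    apply no_inv h hF hinC
    have e : i⁻¹ * (i * n) * i = i⁻¹ * (i * n * i) := by group
    rw [e, hini, i2] at hinv
    nth_rewrite 1 [hinv]
    group
  have h7 : i = n := by
    have := eq_inv_of_mul_eq_one_left h6
    rw [this, n2]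
  apply hm
  rw [hmdef, h7]
  exact hnA y hy

/-- two elements of `B \ C` in `x B x⁻¹` are equal -/
theorem inter_unique (h : P1 G) (hF : Fac A B C) {x i i' j j' : G} (hx : x ∈ A) (hx1 : x ≠ 1)
    (hi : i ∈ B) (hiC : i ∉ C) (hi' : i' ∈ B) (hiC' : i' ∉ C)
    (hj : j ∈ B) (hj' : j' ∈ B) (hjC : j ∉ C) (hjC' : j' ∉ C)
    (e : i = x * j * x⁻¹) (e' : i' = x * j' * x⁻¹) : i = i' := by
  have i2 := inv_eq h hF hi hiC
  have i2' := inv_eq h hF hi' hiC'
  have h1 : i * i' ∈ C := hF.index _ hi _ hi' hiC hiC'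
  have h2 : j * j' ∈ C := hF.index _ hj _ hj' hjC hjC'
  have h3 : i * i' = 1 := by
    by_contra hne
    apply hx1
    apply inter_AB h hF hx
    apply TI' h hF h1 hne
    have : x⁻¹ * (i * i') * x = j * j' := by rw [e, e']; group
    rw [this]; exact h2
  have := eq_inv_of_mul_eq_one_left h3
  rw [this, i2']

theorem XX_encard (h : P1 G) (hF : Fac A B C) {x : G} (hx : x ∈ A) (hx1 : x ≠ 1) :
    (XX A B C x).encard ≤ 2 := by
  classical
  -- at most one of each kind
  have h1 : {i | i ∈ B ∧ i ∉ C ∧ ∃ j ∈ B, j ∉ C ∧ i = x * j * x⁻¹}.encard ≤ 1 := by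
    rw [Set.encard_le_one_iff]
    rintro i i' ⟨hi, hiC, j, hj, hjC, e⟩ ⟨hi', hiC', j', hj', hjC', e'⟩
    exact inter_unique h hF hx hx1 hi hiC hi' hiC' hj hj' hjC hjC' e e'
  have h2 : {i | i ∈ B ∧ i ∉ C ∧ NorA A i}.encard ≤ 1 := by
    rw [Set.encard_le_one_iff]
    rintro i i' ⟨hi, hiC, hn⟩ ⟨hi', hiC', hn'⟩
    exact norA_unique h hF hi hiC hi' hiC' hn hn'
  have h3 : XX A B C x ⊆ {i | i ∈ B ∧ i ∉ C ∧ ∃ j ∈ B, j ∉ C ∧ i = x * j * x⁻¹} ∪
      {i | i ∈ B ∧ i ∉ C ∧ NorA A i} := by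
    rintro i ⟨hi, hiC, j, hj, hjC, hij⟩
    rcases dich h hF hx hi hiC hj hjC hij with hc | hc
    · left; exact ⟨hi, hiC, j, hj, hjC, hc⟩
    · right; exact ⟨hi, hiC, hc⟩
  calc (XX A B C x).encard ≤ _ := Set.encard_le_encard h3
    _ ≤ _ := Set.encard_union_le _ _
    _ ≤ 1 + 1 := add_le_add h1 h2
    _ = 2 := by norm_num

theorem XX_encard' (h : P1 G) (hF : Fac A B C) (hno : ¬ ∃ i ∈ B, i ∉ C ∧ NorA A i) {x : G}
    (hx : x ∈ A) (hx1 : x ≠ 1) :
    (XX A B C x).encard ≤ 1 := by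
  rw [Set.encard_le_one_iff]
  rintro i i' ⟨hi, hiC, j, hj, hjC, hij⟩ ⟨hi', hiC', j', hj', hjC', hij'⟩
  rcases dich h hF hx hi hiC hj hjC hij with hc | hc
  swap
  · exact absurd ⟨i, hi, hiC, hc⟩ hno
  rcases dich h hF hx hi' hiC' hj' hjC' hij' with hc' | hc'
  swap
  · exact absurd ⟨i', hi', hiC', hc'⟩ hno
  exact inter_unique h hF hx hx1 hi hiC hi' hiC' hj hj' hjC hjC' hc hc'

/-- counting -/
theorem count (h : P1 G) (hF : Fac A B C) (hne : ∃ g : G, g ≠ 1) (m : ℕ∞)
    (hX : ∀ x ∈ A, x ≠ 1 → (XX A B C x).encard ≤ m) : (C : Set G).encard ≤ m + m := by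
  obtain ⟨t, ht, htC⟩ := exists_not_mem h hF hne
  obtain ⟨x, hx, hx1⟩ := exists_A h hF hne
  have hI : ∀ x ∈ A, x ∈ B → x = 1 := fun x hA hB => inter_AB h hF hA hB
  -- `|C| = |B \ C|`
  have h1 : (C : Set G).encard ≤ {i | i ∈ B ∧ i ∉ C}.encard := by
    have hinj : Function.Injective (fun c : G => t * c) := mul_right_injective t
    rw [← hinj.encard_image (C : Set G)]
    apply Set.encard_le_encard
    rintro _ ⟨c, hc, rfl⟩
    refine ⟨B.mul_mem ht (hF.le hc), fun hh => htC ?_⟩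
    have := C.mul_mem hh (C.inv_mem hc)
    simpa using this
  refine h1.trans ?_
  by_cases hcase : ∃ c ∈ C, ∃ j0 ∈ B, j0 ∉ C ∧ c⁻¹ * x * j0 ∈ A
  · obtain ⟨c, hc, j0, hj0, hj0C, hcj⟩ := hcase
    -- `x' `
    set x' := pa hF.prod (c⁻¹ * x) with hx'
    set b' := pb hF.prod (c⁻¹ * x) with hb'
    have hxb : x' * b' = c⁻¹ * x := pa_mul_pb hF.prod _
    have mx' : x' ∈ A := pa_mem _ _
    have mb' : b' ∈ B := pb_mem _ _
    have hx'1 : x' ≠ 1 := by
      intro hc1
      rw [hc1, one_mul] at hxb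
      apply hx1
      apply hI x hx
      have e : x = c * (c⁻¹ * x) := by group
      rw [e, ← hxb]
      exact B.mul_mem (hF.le hc) mb'
    have hbj : b' * j0 = 1 := by
      apply hI _ _ (B.mul_mem mb' hj0)
      have e : b' * j0 = x'⁻¹ * (c⁻¹ * x * j0) := by rw [← hxb]; group
      rw [e]
      exact A.mul_mem (A.inv_mem mx') hcj
    have hb'C : b' ∉ C := by
      intro hh
      apply hj0C
      have := eq_inv_of_mul_eq_one_right hbj
      rw [this]
      exact C.inv_mem hh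
    have hY : {i | i ∈ B ∧ i ∉ C ∧ ∃ j ∈ C, i⁻¹ * x * j ∈ A}.encard ≤ m := by
      have hinj : Function.Injective (fun i : G => c⁻¹ * i) := mul_right_injective c⁻¹
      rw [← hinj.encard_image]
      refine le_trans (Set.encard_le_encard ?_) (hX x' mx' hx'1)
      rintro _ ⟨i, ⟨hi, hiC, j, hj, hij⟩, rfl⟩
      refine ⟨B.mul_mem (B.inv_mem (hF.le hc)) hi, fun hh => hiC ?_, b' * j,
        B.mul_mem mb' (hF.le hj), fun hh => hb'C ?_, ?_⟩
      · have := C.mul_mem hc hh
        simpa using this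
      · have := C.mul_mem hh (C.inv_mem hj)
        simpa using this
      · have e : (c⁻¹ * i)⁻¹ * x' * (b' * j) = i⁻¹ * c * (x' * b') * j := by group
        rw [e, hxb]
        have e2 : i⁻¹ * c * (c⁻¹ * x) * j = i⁻¹ * x * j := by group
        rw [e2]; exact hij
    have hsub : {i | i ∈ B ∧ i ∉ C} ⊆ XX A B C x ∪ {i | i ∈ B ∧ i ∉ C ∧ ∃ j ∈ C, i⁻¹ * x * j ∈ A} := by
      rintro i ⟨hi, hiC⟩
      obtain ⟨a, ha, j, hj, haj⟩ := hF.prod (i⁻¹ * x)
      have e : i⁻¹ * x * j⁻¹ = a := by rw [← haj]; group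
      by_cases hjC : j ∈ C
      · right
        exact ⟨hi, hiC, j⁻¹, C.inv_mem hjC, by rw [e]; exact ha⟩
      · left
        exact ⟨hi, hiC, j⁻¹, B.inv_mem hj, fun hh => hjC (by simpa using C.inv_mem hh),
          by rw [e]; exact ha⟩
    calc _ ≤ _ := Set.encard_le_encard hsub
      _ ≤ _ := Set.encard_union_le _ _
      _ ≤ m + m := add_le_add (hX x hx hx1) hY
  · -- every `j ∈ B \ C` maps to an element of `X_x`
    push Not at hcase
    have hch : ∀ j : G, ∃ i, i ∈ B ∧ i⁻¹ * x * j ∈ A := by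
      intro j
      obtain ⟨b, hb, a, ha, hba⟩ := hF.prod' (x * j)
      refine ⟨b, hb, ?_⟩
      have e : b⁻¹ * x * j = a := by rw [mul_assoc, ← hba]; group
      rw [e]; exact ha
    choose σ hσB hσA using hch
    have hinj : Set.InjOn σ {i | i ∈ B ∧ i ∉ C} := by
      rintro j ⟨hj, hjC⟩ j' ⟨hj', hjC'⟩ hjj
      have a1 := hσA j
      have a2 := hσA j'
      rw [hjj] at a1
      have a3 : j⁻¹ * j' ∈ A := by
        have := A.mul_mem (A.inv_mem a1) a2
        have e : ((σ j')⁻¹ * x * j)⁻¹ * ((σ j')⁻¹ * x * j') = j⁻¹ * j' := by group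
        rwa [e] at this
      have := hI _ a3 (B.mul_mem (B.inv_mem hj) hj')
      exact inv_mul_eq_one.1 this
    rw [← hinj.encard_image]
    refine le_trans (Set.encard_le_encard ?_) ((hX x hx hx1).trans le_self_add)
    rintro _ ⟨j, ⟨hj, hjC⟩, rfl⟩
    refine ⟨hσB j, fun hh => ?_, j, hj, hjC, hσA j⟩
    exact hcase _ hh j hj hjC (hσA j)

end Pool.Agent.helper45.AB2
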