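import Mathlib

/-!
# Products `G = AB` with `A` abelian and `B` having an abelian subgroup of index two: definitions
-/

set_option autoImplicit false

namespace Pool.Agent.helper45.AB2

universe u

/-- `G = AB`, `A` abelian, `C ≤ B` abelian of index at most two in `B`. -/
structure Fac {G : Type u} [Group G] (A B C : Subgroup G) : Prop where
  prod : ∀ g : G, ∃ a ∈ A, ∃ b ∈ B, a * b = g
  commA : ∀ x ∈ A, ∀ y ∈ A, x * y = y * x
  le : C ≤ B
  commC : ∀ x ∈ C, ∀ y ∈ C, x * y = y * x
  index : ∀ x ∈ B, ∀ y ∈ B, x ∉ C → y ∉ C → x * y ∈ C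

/-- centralisers of nontrivial normal subgroups are trivial -/
def P1 (G : Type u) [Group G] : Prop :=
  ∀ N : Subgroup G, N.Normal → N ≠ ⊥ → ∀ g : G, (∀ n ∈ N, g * n = n * g) → g = 1

/-- elements of `C` that are inverted by all elements of `B` outside `C` -/
def Dm {G : Type u} [Group G] (B C : Subgroup G) (d : G) : Prop :=
  d ∈ C ∧ ∀ s ∈ B, s ∉ C → s⁻¹ * d * s = d⁻¹

end Pool.Agent.helper45.AB2
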