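import Pool.Agent.helper45.AB2.Defs

set_option autoImplicit false

namespace Pool.Agent.helper45.AB2

universe u

open scoped commutatorElement

variable {G : Type u} [Group G] {A B C : Subgroup G}

/-- an abelian normal subgroup is trivial -/
theorem P1.abelian (h : P1 G) (N : Subgroup G) (hN : N.Normal)
    (hc : ∀ x ∈ N, ∀ y ∈ N, x * y = y * x) : N = ⊥ := by
  by_contra hne
  apply hne
  rw [eq_bot_iff]
  intro x hx
  rw [Subgroup.mem_bot]
  exact h N hN hne x (fun n hn => hc x hx n hn)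

/-- a normal subgroup in which commutators commute is trivial -/
theorem P1.metabelian (h : P1 G) (N : Subgroup G) (hN : N.Normal)
    (hc : ∀ x ∈ N, ∀ y ∈ N, ∀ z ∈ N, ∀ w ∈ N,
      (x * y * x⁻¹ * y⁻¹) * (z * w * z⁻¹ * w⁻¹) = (z * w * z⁻¹ * w⁻¹) * (x * y * x⁻¹ * y⁻¹)) :
    N = ⊥ := by
  have key : ∀ x ∈ ⁅N, N⁆, ∀ y ∈ ⁅N, N⁆, x * y = y * x := by
    have h1 : ∀ x ∈ N, ∀ y ∈ N, ∀ g ∈ ⁅N, N⁆, ⁅x, y⁆ * g = g * ⁅x, y⁆ := by
      intro x hx y hy g hg
      have : ⁅N, N⁆ ≤ Subgroup.centralizer {⁅x, y⁆} := by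
        rw [Subgroup.commutator_le]
        intro z hz w hw
        rw [Subgroup.mem_centralizer_iff]
        intro k hk
        rw [Set.mem_singleton_iff] at hk
        subst hk
        simpa only [commutatorElement_def] using hc x hx y hy z hz w hw
      have := this hg
      rw [Subgroup.mem_centralizer_iff] at this
      exact this _ (Set.mem_singleton _)
    intro x hx y hy
    have : ⁅N, N⁆ ≤ Subgroup.centralizer {y} := by
      rw [Subgroup.commutator_le]
      intro z hz w hw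
      rw [Subgroup.mem_centralizer_iff]
      intro k hk
      rw [Set.mem_singleton_iff] at hk
      subst hk
      exact (h1 z hz w hw k hy).symm
    have := this hx
    rw [Subgroup.mem_centralizer_iff] at this
    exact (this y (Set.mem_singleton _)).symm
  have hb : ⁅N, N⁆ = ⊥ := P1.abelian h _ (Subgroup.commutator_normal N N) key
  apply P1.abelian h N hN
  intro x hx y hy
  have : ⁅x, y⁆ ∈ ⁅N, N⁆ := Subgroup.commutator_mem_commutator hx hy
  rw [hb, Subgroup.mem_bot] at this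
  exact commutatorElement_eq_one_iff_mul_comm.1 this

/-- conjugates of elements of `C` by elements of `B` -/
theorem Fac.conj_mem (hF : Fac A B C) {b c : G} (hb : b ∈ B) (hc : c ∈ C) :
    b * c * b⁻¹ ∈ C := by
  by_cases hbC : b ∈ C
  · exact C.mul_mem (C.mul_mem hbC hc) (C.inv_mem hbC)
  · have h1 : b * c ∉ C := fun h => hbC (by
      have := C.mul_mem h (C.inv_mem hc)
      simpa using this)
    exact hF.index _ (B.mul_mem hb (hF.le hc)) _ (B.inv_mem hb) h1
      (fun h => hbC (by simpa using C.inv_mem h))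

theorem Fac.conj_mem' (hF : Fac A B C) {b c : G} (hb : b ∈ B) (hc : c ∈ C) :
    b⁻¹ * c * b ∈ C := by
  have := hF.conj_mem (B.inv_mem hb) hc
  rwa [inv_inv] at this

/-- all elements outside `C` act in the same way on `C` -/
theorem Fac.conj_eq (hF : Fac A B C) {s s' c : G} (hs : s ∈ B) (hs' : s' ∈ B) (hsC : s ∉ C)
    (hsC' : s' ∉ C) (hc : c ∈ C) : s⁻¹ * c * s = s'⁻¹ * c * s' := by
  have h1 : s' * s⁻¹ ∈ C := hF.index _ hs' _ (B.inv_mem hs) hsC'
    (fun h => hsC (by simpa using C.inv_mem h))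
  have h2 := hF.commC _ h1 _ hc
  have h3 : s⁻¹ * c * s = s'⁻¹ * ((s' * s⁻¹) * c) * s := by group
  rw [h3, h2]
  group

/-- the action of an element outside `C` on `C` has square one -/
theorem Fac.conj_conj (hF : Fac A B C) {s c : G} (hs : s ∈ B) (hsC : s ∉ C)
    (hc : c ∈ C) : s⁻¹ * (s⁻¹ * c * s) * s = c := by
  have h1 : s * s ∈ C := hF.index _ hs _ hs hsC hsC
  have h2 := hF.commC _ h1 _ hc
  have h3 : s⁻¹ * (s⁻¹ * c * s) * s = (s * s)⁻¹ * (c * (s * s)) := by group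
  rw [h3, ← h2]
  group

theorem Dm.inv {d : G} (hd : Dm B C d) : Dm B C d⁻¹ := by
  refine ⟨C.inv_mem hd.1, fun s hs hsC => ?_⟩
  have := hd.2 s hs hsC
  have h2 : s⁻¹ * d⁻¹ * s = (s⁻¹ * d * s)⁻¹ := by group
  rw [h2, this]

theorem Fac.comm_Dm_aux (hF : Fac A B C) {c s : G} (hc : c ∈ C) (hs : s ∈ B) :
    Dm B C (c⁻¹ * s⁻¹ * c * s) := by
  have hm : s⁻¹ * c * s ∈ C := hF.conj_mem' hs hc
  refine ⟨?_, fun r hr hrC => ?_⟩
  · have : c⁻¹ * s⁻¹ * c * s = c⁻¹ * (s⁻¹ * c * s) := by group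
    rw [this]
    exact C.mul_mem (C.inv_mem hc) hm
  · by_cases hsC : s ∈ C
    · have h1 := hF.commC _ hc _ hsC
      have h2 : c⁻¹ * s⁻¹ * c * s = (s * c)⁻¹ * (c * s) := by group
      rw [h2, h1]
      group
    · have e1 := hF.conj_eq hr hs hrC hsC hc
      have e2 := hF.conj_eq hr hs hrC hsC hm
      have e3 := hF.conj_conj hs hsC hc
      have h1 : r⁻¹ * (c⁻¹ * s⁻¹ * c * s) * r
          = (r⁻¹ * c * r)⁻¹ * (r⁻¹ * (s⁻¹ * c * s) * r) := by group
      rw [h1, e1, e2, e3]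
      group

/-- commutators of elements of `B` are in `Dm`. -/
theorem Fac.comm_Dm (hF : Fac A B C) {b b' : G} (hb : b ∈ B) (hb' : b' ∈ B) :
    Dm B C (b⁻¹ * b'⁻¹ * b * b') := by
  by_cases hbC : b ∈ C
  · exact hF.comm_Dm_aux hbC hb'
  by_cases hbC' : b' ∈ C
  · have := (hF.comm_Dm_aux hbC' hb).inv
    have h2 : (b'⁻¹ * b⁻¹ * b' * b)⁻¹ = b⁻¹ * b'⁻¹ * b * b' := by group
    rwa [h2] at this
  · have h1 : b⁻¹ * b' ∈ C := hF.index _ (B.inv_mem hb) _ hb'
      (fun h => hbC (by simpa using C.inv_mem h)) hbC'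
    have := (hF.comm_Dm_aux h1 hb).inv
    have h2 : ((b⁻¹ * b')⁻¹ * b⁻¹ * (b⁻¹ * b') * b)⁻¹ = b⁻¹ * b'⁻¹ * b * b' := by group
    rwa [h2] at this

/-- `core B = 1`, elementwise -/
theorem core_B (h : P1 G) (hF : Fac A B C) {x : G} (hx : ∀ g : G, g * x * g⁻¹ ∈ B) : x = 1 := by
  have hN : (Subgroup.normalClosure {x}).Normal := Subgroup.normalClosure_normal
  have hle : Subgroup.normalClosure {x} ≤ B := by
    rw [Subgroup.normalClosure, Subgroup.closure_le]
    intro y hy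
    rw [Group.mem_conjugatesOfSet_iff] at hy
    obtain ⟨a, ha, hy⟩ := hy
    rw [Set.mem_singleton_iff] at ha
    subst ha
    obtain ⟨g, hg⟩ := isConj_iff.1 hy
    rw [← hg]
    exact hx g
  have hb := h.metabelian _ hN (by
    intro x hx y hy z hz w hw
    have e1 := hF.comm_Dm (B.inv_mem (hle hx)) (B.inv_mem (hle hy))
    have e2 := hF.comm_Dm (B.inv_mem (hle hz)) (B.inv_mem (hle hw))
    rw [inv_inv, inv_inv] at e1 e2
    exact hF.commC _ e1.1 _ e2.1)
  have : x ∈ Subgroup.normalClosure {x} := Subgroup.subset_normalClosure (Set.mem_singleton _)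
  rw [hb, Subgroup.mem_bot] at this
  exact this

/-- products in the other order -/
theorem Fac.prod' (hF : Fac A B C) (g : G) : ∃ b ∈ B, ∃ a ∈ A, b * a = g := by
  obtain ⟨a, ha, b, hb, h⟩ := hF.prod g⁻¹
  refine ⟨b⁻¹, B.inv_mem hb, a⁻¹, A.inv_mem ha, ?_⟩
  rw [← mul_inv_rev, h, inv_inv]

theorem inter_AB (h : P1 G) (hF : Fac A B C) {x : G} (hA : x ∈ A) (hB : x ∈ B) : x = 1 := by
  apply core_B h hF
  intro g
  obtain ⟨b, hb, a, ha, rfl⟩ := hF.prod' g
  have h1 := hF.commA _ ha _ hA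
  have h2 : b * a * x * (b * a)⁻¹ = b * (a * x) * a⁻¹ * b⁻¹ := by group
  rw [h2, h1]
  have h3 : b * (x * a) * a⁻¹ * b⁻¹ = b * x * b⁻¹ := by group
  rw [h3]
  exact B.mul_mem (B.mul_mem hb hB) (B.inv_mem hb)

theorem center_trivial (h : P1 G) {x : G} (hx : ∀ g : G, x * g = g * x) : x = 1 := by
  have hN : (Subgroup.center G).Normal := inferInstance
  have := h.abelian _ hN (fun y hy z hz => (Subgroup.mem_center_iff.1 hz y))
  have hxc : x ∈ Subgroup.center G := Subgroup.mem_center_iff.2 (fun g => (hx g).symm)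
  rw [this, Subgroup.mem_bot] at hxc
  exact hxc

/-- `N_G(B) = B` -/
theorem norm_B (h : P1 G) (hF : Fac A B C) {g : G} (hg : ∀ b ∈ B, g⁻¹ * b * g ∈ B) : g ∈ B := by
  obtain ⟨a, ha, b, hb, rfl⟩ := hF.prod g
  have h1 : ∀ b' ∈ B, a⁻¹ * b' * a ∈ B := by
    intro b' hb'
    have := hg _ hb'
    have e : a⁻¹ * b' * a = b * ((a * b)⁻¹ * b' * (a * b)) * b⁻¹ := by group
    rw [e]
    exact B.mul_mem (B.mul_mem hb this) (B.inv_mem hb)
  -- all commutators [a, g] lie in B
  have h2 : ∀ g : G, a⁻¹ * g⁻¹ * a * g ∈ B := by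
    intro g
    obtain ⟨a', ha', b', hb', rfl⟩ := hF.prod g
    have h3 := hF.commA _ ha _ ha'
    have e : a⁻¹ * (a' * b')⁻¹ * a * (a' * b') = (a⁻¹ * b'⁻¹ * a) * (a⁻¹ * a'⁻¹ * (a * a')) * b' := by
      group
    rw [e, h3]
    have e2 : (a⁻¹ * b'⁻¹ * a) * (a⁻¹ * a'⁻¹ * (a' * a)) * b' = (a⁻¹ * b'⁻¹ * a) * b' := by group
    rw [e2]
    exact B.mul_mem (h1 _ (B.inv_mem hb')) hb'
  have h4 : ∀ g : G, a⁻¹ * g⁻¹ * a * g = 1 := by
    intro g
    apply core_B h hF
    intro k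
    have e : k * (a⁻¹ * g⁻¹ * a * g) * k⁻¹
        = (a⁻¹ * (k⁻¹)⁻¹ * a * k⁻¹)⁻¹ * (a⁻¹ * (g * k⁻¹)⁻¹ * a * (g * k⁻¹)) := by group
    rw [e]
    exact B.mul_mem (B.inv_mem (h2 _)) (h2 _)
  have h5 : a = 1 := by
    apply center_trivial h
    intro g
    have := h4 g
    have e : a⁻¹ * g⁻¹ * a * g = (g * a)⁻¹ * (a * g) := by group
    rw [e, inv_mul_eq_one] at this
    exact this.symm
  subst h5
  simpa using hb

/-- If `M ≥ B` is a subgroup and a normal subgroup contained in `M` is always trivial,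
then `M = B`. -/
theorem overgroup (hF : Fac A B C) (M : Subgroup G) (hBM : B ≤ M)
    (hM : ∀ x ∈ M, (∀ g : G, g * x * g⁻¹ ∈ M) → x = 1) : M ≤ B := by
  intro g hg
  obtain ⟨b, hb, a, ha, rfl⟩ := hF.prod' g
  have haM : a ∈ M := by
    have := M.mul_mem (M.inv_mem (hBM hb)) hg
    simpa [← mul_assoc] using this
  have : a = 1 := by
    apply hM a haM
    intro g
    obtain ⟨b', hb', a', ha', rfl⟩ := hF.prod' g
    have h1 := hF.commA _ ha' _ ha
    have h2 : b' * a' * a * (b' * a')⁻¹ = b' * (a' * a) * a'⁻¹ * b'⁻¹ := by group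
    rw [h2, h1]
    have h3 : b' * (a * a') * a'⁻¹ * b'⁻¹ = b' * a * b'⁻¹ := by group
    rw [h3]
    exact M.mul_mem (M.mul_mem (hBM hb') haM) (M.inv_mem (hBM hb'))
  subst this
  simpa using hb

/-- `x` centralises the normal closure of `d ≠ 1` as soon as it commutes with all conjugates -/
theorem P1.conj (h : P1 G) {d x : G} (hd : d ≠ 1) (hx : ∀ g : G, x * (g * d * g⁻¹) = (g * d * g⁻¹) * x) :
    x = 1 := by
  have hN : (Subgroup.normalClosure {d}).Normal := Subgroup.normalClosure_normal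
  have hdm : d ∈ Subgroup.normalClosure {d} := Subgroup.subset_normalClosure (Set.mem_singleton _)
  apply h _ hN
  · intro hb
    rw [hb, Subgroup.mem_bot] at hdm
    exact hd hdm
  · intro n hn
    have : Subgroup.normalClosure {d} ≤ Subgroup.centralizer {x} := by
      rw [Subgroup.normalClosure, Subgroup.closure_le]
      intro y hy
      rw [Group.mem_conjugatesOfSet_iff] at hy
      obtain ⟨a, ha, hy⟩ := hy
      rw [Set.mem_singleton_iff] at ha
      subst ha
      obtain ⟨g, hg⟩ := isConj_iff.1 hy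
      rw [← hg, SetLike.mem_coe, Subgroup.mem_centralizer_iff]
      intro k hk
      rw [Set.mem_singleton_iff] at hk
      subst hk
      exact hx g
    have := this hn
    rw [Subgroup.mem_centralizer_iff] at this
    exact this x (Set.mem_singleton _)

/-- `C_G(w) = B` for central `w ≠ 1` -/
theorem cent_w (h : P1 G) (hF : Fac A B C) {w : G} (hw1 : w ≠ 1)
    (hw : ∀ b ∈ B, b * w = w * b) {g : G} (hg : g * w = w * g) : g ∈ B := by
  have key : Subgroup.centralizer {w} ≤ B := by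
    apply overgroup hF
    · intro b hb
      rw [Subgroup.mem_centralizer_iff]
      intro k hk
      rw [Set.mem_singleton_iff] at hk
      subst hk
      exact (hw b hb).symm
    · intro x hx hxg
      apply h.conj hw1
      intro g
      have := hxg g⁻¹
      rw [Subgroup.mem_centralizer_iff] at this
      have := this w (Set.mem_singleton _)
      have e1 : x * (g * w * g⁻¹) = g * (g⁻¹ * x * g⁻¹⁻¹ * w) * g⁻¹ := by group
      have e2 : g * w * g⁻¹ * x = g * (w * (g⁻¹ * x * g⁻¹⁻¹)) * g⁻¹ := by group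
      rw [e1, e2, this]
  apply key
  rw [Subgroup.mem_centralizer_iff]
  intro k hk
  rw [Set.mem_singleton_iff] at hk
  subst hk
  exact hg.symm

/-- the subgroup of all `g` with `d ^ g = d` or `d ^ g = d⁻¹` -/
def Mpm (d : G) : Subgroup G where
  carrier := {g | g⁻¹ * d * g = d ∨ g⁻¹ * d * g = d⁻¹}
  one_mem' := by left; simp
  mul_mem' := by
    intro a b ha hb
    have e : (a * b)⁻¹ * d * (a * b) = b⁻¹ * (a⁻¹ * d * a) * b := by group
    have e2 : b⁻¹ * d⁻¹ * b = (b⁻¹ * d * b)⁻¹ := by group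
    simp only [Set.mem_ofPred_eq] at ha hb ⊢
    rw [e]
    rcases ha with ha | ha <;> rcases hb with hb | hb
    · left; rw [ha, hb]
    · right; rw [ha, hb]
    · right; rw [ha, e2, hb]
    · left; rw [ha, e2, hb, inv_inv]
  inv_mem' := by
    intro a ha
    simp only [Set.mem_ofPred_eq, inv_inv] at ha ⊢
    rcases ha with ha | ha
    · left
      nth_rewrite 1 [← ha]
      group
    · right
      have e : a * d * a⁻¹ = (a * (d⁻¹) * a⁻¹)⁻¹ := by group
      have e2 : d = a * (a⁻¹ * d * a) * a⁻¹ := by group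
      rw [ha] at e2
      rw [e, ← e2]

theorem mem_Mpm {d g : G} : g ∈ Mpm d ↔ (g⁻¹ * d * g = d ∨ g⁻¹ * d * g = d⁻¹) := Iff.rfl

/-- `M_d = B` for `1 ≠ d ∈ D` -/
theorem Mpm_le (h : P1 G) (hF : Fac A B C) {d : G} (hd : Dm B C d) (hd1 : d ≠ 1) :
    Mpm d ≤ B := by
  apply overgroup hF
  · intro b hb
    rw [mem_Mpm]
    by_cases hbC : b ∈ C
    · left
      have := hF.commC _ hd.1 _ hbC
      rw [mul_assoc, this]
      group
    · right
      exact hd.2 b hb hbC
  · intro x hx hxg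
    have hxK : x ∈ (Mpm d).normalCore := hxg
    have hK : (Mpm d).normalCore = ⊥ := by
      apply h.abelian _ inferInstance
      have key : ∀ n ∈ (Mpm d).normalCore, ∀ g : G,
          n⁻¹ * (g * d * g⁻¹) * n = (g * d * g⁻¹) ∨ n⁻¹ * (g * d * g⁻¹) * n = (g * d * g⁻¹)⁻¹ := by
        intro n hn g
        have h1 : g⁻¹ * n * g⁻¹⁻¹ ∈ Mpm d := hn g⁻¹
        rw [mem_Mpm] at h1
        have e : n⁻¹ * (g * d * g⁻¹) * n
            = g * ((g⁻¹ * n * g⁻¹⁻¹)⁻¹ * d * (g⁻¹ * n * g⁻¹⁻¹)) * g⁻¹ := by group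
        rw [e]
        rcases h1 with h1 | h1
        · left; rw [h1]
        · right; rw [h1]; group
      have key2 : ∀ n n' e : G, (n⁻¹ * e * n = e ∨ n⁻¹ * e * n = e⁻¹) →
          (n'⁻¹ * e * n' = e ∨ n'⁻¹ * e * n' = e⁻¹) →
          (n * n')⁻¹ * e * (n * n') = (n' * n)⁻¹ * e * (n' * n) := by
        intro n n' e h1 h2
        have e1 : (n * n')⁻¹ * e * (n * n') = n'⁻¹ * (n⁻¹ * e * n) * n' := by group
        have e2 : (n' * n)⁻¹ * e * (n' * n) = n⁻¹ * (n'⁻¹ * e * n') * n := by group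
        have e3 : n'⁻¹ * e⁻¹ * n' = (n'⁻¹ * e * n')⁻¹ := by group
        have e4 : n⁻¹ * e⁻¹ * n = (n⁻¹ * e * n)⁻¹ := by group
        rw [e1, e2]
        rcases h1 with h1 | h1 <;> rcases h2 with h2 | h2
        · rw [h1, h2, h1]
        · rw [h1, h2, e4, h1]
        · rw [h1, h2, e3, h2, h1]
        · rw [h1, h2, e3, h2, e4, h1]
      intro n hn n' hn'
      have : (n * n') * (n' * n)⁻¹ = 1 := by
        apply h.conj hd1
        intro g
        have h1 := key2 n n' (g * d * g⁻¹) (key n hn g) (key n' hn' g)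
        have e1 : (n * n') * (n' * n)⁻¹ * (g * d * g⁻¹)
          = (n * n') * ((n' * n)⁻¹ * (g * d * g⁻¹) * (n' * n)) * (n' * n)⁻¹ := by group
        rw [e1, ← h1]
        group
      rw [mul_inv_eq_one] at this
      exact this
    rw [hK, Subgroup.mem_bot] at hxK
    exact hxK

/-- the TI property -/
theorem TI (h : P1 G) (hF : Fac A B C) {d g : G} (hd : Dm B C d) (hd1 : d ≠ 1)
    (hg : Dm B C (g⁻¹ * d * g)) : g ∈ B := by
  apply norm_B h hF
  intro b hb
  apply Mpm_le h hF hg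
  · intro hc
    apply hd1
    have e : d = g * (g⁻¹ * d * g) * g⁻¹ := by group
    rw [e, hc]
    group
  · rw [mem_Mpm]
    have e : (g⁻¹ * b * g)⁻¹ * (g⁻¹ * d * g) * (g⁻¹ * b * g) = g⁻¹ * (b⁻¹ * d * b) * g := by group
    rw [e]
    by_cases hbC : b ∈ C
    · left
      have := hF.commC _ hd.1 _ hbC
      have e2 : b⁻¹ * d * b = b⁻¹ * (d * b) := by group
      rw [e2, this]
      group
    · right
      rw [hd.2 b hb hbC]
      group

end Pool.Agent.helper45.AB2
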