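import Pool.Agent.helper45.AB2.CaseD

/-!
# Main: `P1` is impossible
-/

set_option autoImplicit false

namespace Pool.Agent.helper45.AB2

universe u

variable {G : Type u} [Group G] {A B C : Subgroup G}

/-- `|C|` is not `1` and `C` has no involutions: bound `4` gives `3`, and bound `2` is
impossible. -/
theorem card_C (h : P1 G) (hF : Fac A B C) (hne : ∃ g : G, g ≠ 1)
    (hC : (C : Set G).encard ≤ 4) : Nat.card C = 3 := by
  obtain ⟨t, ht, htC⟩ := exists_not_mem h hF hne
  have hfin : (C : Set G).Finite := by
    apply Set.finite_of_encard_le_coe (k := 4)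
    exact_mod_cast hC
  have : Finite C := hfin
  have h4 : Nat.card C ≤ 4 := by
    have h5 : (C : Set G).encard = ((C : Set G).ncard : ℕ∞) := (hfin.cast_ncard_eq).symm
    rw [h5] at hC
    have h6 : (C : Set G).ncard ≤ 4 := by exact_mod_cast hC
    exact h6
  have hpos : 0 < Nat.card C := Nat.card_pos
  -- not 1
  have h1 : Nat.card C ≠ 1 := by
    intro hc
    have hbot : C = ⊥ := Subgroup.card_eq_one.1 hc
    apply htC
    have : t = 1 := by
      apply caseB h hF ht
      intro b hb
      by_cases hbC : b ∈ C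
      · rw [hbot, Subgroup.mem_bot] at hbC
        subst hbC; group
      · have h2 := hF.index _ ht _ hb htC hbC
        rw [hbot, Subgroup.mem_bot] at h2
        have h3 := eq_inv_of_mul_eq_one_right h2
        rw [h3]; group
    rw [this]; exact C.one_mem
  -- not even
  have h2 : ¬ 2 ∣ Nat.card C := by
    intro hd
    have : Fact (Nat.Prime 2) := ⟨Nat.prime_two⟩
    obtain ⟨x, hx⟩ := exists_prime_orderOf_dvd_card' (G := C) 2 hd
    have h3 : x ^ 2 = 1 := by rw [← hx]; exact pow_orderOf_eq_one x
    have h4 : (x : G) * (x : G) = 1 := by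
      have := congrArg (fun y : C => (y : G)) h3
      simpa [pow_two] using this
    have h5 := no_inv h hF x.2 h4
    have h6 : x = 1 := Subtype.ext h5
    rw [h6, orderOf_one] at hx
    exact absurd hx (by norm_num)
  omega

theorem exists_norA (h : P1 G) (hF : Fac A B C) (hne : ∃ g : G, g ≠ 1) :
    ∃ i ∈ B, i ∉ C ∧ NorA A i := by
  by_contra hno
  have h1 := count h hF hne 1 (fun x hx hx1 => XX_encard' h hF hno hx hx1)
  have h2 : (1 : ℕ∞) + 1 = 2 := by norm_num
  rw [h2] at h1
  have h3 := card_C h hF hne (h1.trans (by norm_num))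
  have hfin : (C : Set G).Finite := by
    apply Set.finite_of_encard_le_coe (k := 2)
    exact_mod_cast h1
  have h5 : (C : Set G).encard = ((C : Set G).ncard : ℕ∞) := (hfin.cast_ncard_eq).symm
  rw [h5] at h1
  have h6 : (C : Set G).ncard ≤ 2 := by exact_mod_cast h1
  have h7 : (C : Set G).ncard = Nat.card C := rfl
  omega

/-- Main theorem -/
theorem main (h : P1 G) (hF : Fac A B C) (g : G) : g = 1 := by
  by_contra hg
  have hne : ∃ g : G, g ≠ 1 := ⟨g, hg⟩
  have hc3 : Nat.card C = 3 := by
    apply card_C h hF hne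
    have h1 := count h hF hne 2 (fun x hx hx1 => XX_encard h hF hx hx1)
    have h2 : (2 : ℕ∞) + 2 = 4 := by norm_num
    rwa [h2] at h1
  have : Finite C := Nat.finite_of_card_ne_zero (by omega)
  obtain ⟨n, hn, hnC, hnA⟩ := exists_norA h hF hne
  have n2 := inv_eq h hF hn hnC
  have nn := sq_one h hF hn hnC
  -- the normaliser of `A`
  let N : Subgroup G :=
    { carrier := {g | g ∈ A ∨ g * n ∈ A}
      one_mem' := Or.inl A.one_mem
      mul_mem' := by
        rintro a b (ha | ha) (hb | hb)
        · exact Or.inl (A.mul_mem ha hb)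
        · right
          rw [mul_assoc]
          exact A.mul_mem ha hb
        · right
          have e : a * b * n = (a * n) * (n⁻¹ * b * n) := by group
          rw [e, n2]
          exact A.mul_mem ha (hnA b hb)
        · left
          have e : a * b = (a * n) * (n⁻¹ * (b * n) * n⁻¹) := by group
          rw [e, n2]
          exact A.mul_mem ha (hnA _ hb)
      inv_mem' := by
        rintro a (ha | ha)
        · exact Or.inl (A.inv_mem ha)
        · right
          have e : a⁻¹ * n = n * (a * n)⁻¹ * n := by group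
          rw [e]
          exact hnA _ (A.inv_mem ha) }
  have hNm : ∀ g, g ∈ N ↔ (g ∈ A ∨ g * n ∈ A) := fun _ => Iff.rfl
  have hAN : ∀ g ∈ N, ∀ y ∈ A, g * y * g⁻¹ ∈ A := by
    rintro g (hg | hg) y hy
    · exact A.mul_mem (A.mul_mem hg hy) (A.inv_mem hg)
    · have e : g * y * g⁻¹ = (g * n) * (n⁻¹ * y * n) * (g * n)⁻¹ := by group
      rw [e, n2]
      exact A.mul_mem (A.mul_mem hg (hnA y hy)) (A.inv_mem hg)
  -- commutators of `N` lie in `A`
  have hcomm : ∀ g ∈ N, ∀ k ∈ N, g * k * g⁻¹ * k⁻¹ ∈ A := by
    intro g hg k hk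
    rcases (hNm g).1 hg with hg' | hg'
    · have e : g * k * g⁻¹ * k⁻¹ = g * (k * g⁻¹ * k⁻¹) := by group
      rw [e]
      exact A.mul_mem hg' (hAN k hk _ (A.inv_mem hg'))
    rcases (hNm k).1 hk with hk' | hk'
    · exact A.mul_mem (hAN g hg k hk') (A.inv_mem hk')
    · have h1 : g * k ∈ A := by
        have e : g * k = (g * n) * (n⁻¹ * (k * n) * n⁻¹) := by group
        rw [e, n2]
        exact A.mul_mem hg' (hnA _ hk')
      have h2 : k * g ∈ A := by
        have e : k * g = (k * n) * (n⁻¹ * (g * n) * n⁻¹) := by group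
        rw [e, n2]
        exact A.mul_mem hk' (hnA _ hg')
      have e : g * k * g⁻¹ * k⁻¹ = (g * k) * (k * g)⁻¹ := by group
      rw [e]
      exact A.mul_mem h1 (A.inv_mem h2)
  have hcore : N.normalCore = ⊥ := by
    apply h.metabelian _ inferInstance
    intro x hx y hy z hz w hw
    have hle := N.normalCore_le
    exact hF.commA _ (hcomm _ (hle hx) _ (hle hy)) _ (hcomm _ (hle hz) _ (hle hw))
  -- at most three cosets
  have hsurj : Function.Surjective (fun c : C => ((c : G) : G ⧸ N)) := by
    intro q
    induction q using QuotientGroup.induction_on with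
    | H g =>
      obtain ⟨b, hb, a, ha, rfl⟩ := hF.prod' g
      by_cases hbC : b ∈ C
      · refine ⟨⟨b, hbC⟩, ?_⟩
        change ((b : G) : G ⧸ N) = _
        rw [QuotientGroup.eq]
        left
        have e : b⁻¹ * (b * a) = a := by group
        rw [e]; exact ha
      · refine ⟨⟨b * n, hF.index _ hb _ hn hbC hnC⟩, ?_⟩
        change ((b * n : G) : G ⧸ N) = _
        rw [QuotientGroup.eq]
        right
        have e : (b * n)⁻¹ * (b * a) * n = n⁻¹ * a * n := by group
        rw [e, n2]
        exact hnA a ha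
  have : Finite (G ⧸ N) := Finite.of_surjective _ hsurj
  have hq : Nat.card (G ⧸ N) ≤ 3 := by
    rw [← hc3]
    exact Nat.card_le_card_of_surjective _ hsurj
  -- `G` embeds in `Sym(G/N)`
  have hinj : Function.Injective (MulAction.toPermHom G (G ⧸ N)) := by
    rw [← MonoidHom.ker_eq_bot_iff, ← Subgroup.normalCore_eq_ker]
    exact hcore
  have : Finite G := Finite.of_injective _ hinj
  have hG : Nat.card G ≤ 6 := by
    refine (Nat.card_le_card_of_injective _ hinj).trans ?_
    rw [Nat.card_perm]
    exact (Nat.factorial_le hq).trans (by decide)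
  -- `|B| ≥ 6`
  have hB : 6 ≤ Nat.card B := by
    have hf : Function.Injective (fun s : C ⊕ C => (Sum.elim (fun c : C => (⟨c, hF.le c.2⟩ : B))
        (fun c : C => ⟨n * c, B.mul_mem hn (hF.le c.2)⟩) s)) := by
      rintro (⟨c, hc⟩ | ⟨c, hc⟩) (⟨d, hd⟩ | ⟨d, hd⟩) hcd
      · simp only [Sum.elim_inl, Subtype.mk.injEq] at hcd
        subst hcd; rfl
      · simp only [Sum.elim_inl, Sum.elim_inr, Subtype.mk.injEq] at hcd
        exfalso
        apply hnC
        have e : n = c * d⁻¹ := by rw [hcd]; group
        rw [e]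
        exact C.mul_mem hc (C.inv_mem hd)
      · simp only [Sum.elim_inl, Sum.elim_inr, Subtype.mk.injEq] at hcd
        exfalso
        apply hnC
        have e : n = d * c⁻¹ := by rw [← hcd]; group
        rw [e]
        exact C.mul_mem hd (C.inv_mem hc)
      · simp only [Sum.elim_inr, Subtype.mk.injEq] at hcd
        have := mul_left_cancel hcd
        subst this; rfl
    have := Nat.card_le_card_of_injective _ hf
    rw [Nat.card_sum, hc3] at this
    exact this
  have htop : B = ⊤ := by
    apply Subgroup.eq_top_of_le_card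
    exact hG.trans hB
  apply hg
  apply core_B h hF
  intro k
  rw [htop]
  exact Subgroup.mem_top _

end Pool.Agent.helper45.AB2
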