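import Pool.Agent.helper45.AB2.Facts

/-!
# The projection `G → A` along `B`, and the relation `U`
-/

set_option autoImplicit false

namespace Pool.Agent.helper45.AB2

universe u

variable {G : Type u} [Group G] {A B : Subgroup G}

/-- the `A`-part of `g = a b` -/
noncomputable def pa (hP : ∀ g : G, ∃ a ∈ A, ∃ b ∈ B, a * b = g) (g : G) : G := (hP g).choose

/-- the `B`-part of `g = a b` -/
noncomputable def pb (hP : ∀ g : G, ∃ a ∈ A, ∃ b ∈ B, a * b = g) (g : G) : G :=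
  (hP g).choose_spec.2.choose

variable (hP : ∀ g : G, ∃ a ∈ A, ∃ b ∈ B, a * b = g)

theorem pa_mem (g : G) : pa hP g ∈ A := (hP g).choose_spec.1

theorem pb_mem (g : G) : pb hP g ∈ B := (hP g).choose_spec.2.choose_spec.1

theorem pa_mul_pb (g : G) : pa hP g * pb hP g = g := (hP g).choose_spec.2.choose_spec.2

theorem pb_eq (g : G) : pb hP g = (pa hP g)⁻¹ * g := by
  rw [eq_inv_mul_iff_mul_eq, pa_mul_pb]

variable (hI : ∀ x ∈ A, x ∈ B → x = 1)

include hI

theorem pa_unique {a g : G} (ha : a ∈ A) (hg : a⁻¹ * g ∈ B) : pa hP g = a := by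
  have h1 : (pa hP g)⁻¹ * a = 1 := by
    apply hI _ (A.mul_mem (A.inv_mem (pa_mem hP g)) ha)
    have e : (pa hP g)⁻¹ * a = pb hP g * (a⁻¹ * g)⁻¹ := by
      rw [pb_eq]; group
    rw [e]
    exact B.mul_mem (pb_mem hP g) (B.inv_mem hg)
  exact inv_mul_eq_one.1 h1

theorem pa_mul_right {g b : G} (hb : b ∈ B) : pa hP (g * b) = pa hP g := by
  apply pa_unique hP hI (pa_mem hP g)
  rw [← mul_assoc, ← pb_eq]
  exact B.mul_mem (pb_mem hP g) hb

theorem pa_mul_left {a g : G} (ha : a ∈ A) : pa hP (a * g) = a * pa hP g := by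
  apply pa_unique hP hI (A.mul_mem ha (pa_mem hP g))
  have e : (a * pa hP g)⁻¹ * (a * g) = (pa hP g)⁻¹ * g := by group
  rw [e, ← pb_eq]
  exact pb_mem hP g

theorem pa_mul_pa (g h : G) : pa hP (g * pa hP h) = pa hP (g * h) := by
  have : g * h = (g * pa hP h) * pb hP h := by rw [mul_assoc, pa_mul_pb]
  rw [this, pa_mul_right hP hI (pb_mem hP h)]

theorem pa_A {a : G} (ha : a ∈ A) : pa hP a = a := by
  apply pa_unique hP hI ha
  simp

theorem pa_B {b : G} (hb : b ∈ B) : pa hP b = 1 := by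
  apply pa_unique hP hI A.one_mem
  simpa using hb

theorem pb_A {a : G} (ha : a ∈ A) : pb hP a = 1 := by
  rw [pb_eq, pa_A hP hI ha]; group

theorem pb_B {b : G} (hb : b ∈ B) : pb hP b = b := by
  rw [pb_eq, pa_B hP hI hb]; group

theorem pb_mul_right {g b : G} (hb : b ∈ B) : pb hP (g * b) = pb hP g * b := by
  rw [pb_eq, pb_eq, pa_mul_right hP hI hb]; group

/-- injectivity of the action of an element -/
theorem pa_inj {g x y : G} (hx : x ∈ A) (hy : y ∈ A) (h : pa hP (g * x) = pa hP (g * y)) :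
    x = y := by
  have h1 : pa hP (g⁻¹ * pa hP (g * x)) = pa hP (g⁻¹ * pa hP (g * y)) := by rw [h]
  rw [pa_mul_pa hP hI, pa_mul_pa hP hI, ← mul_assoc, ← mul_assoc, inv_mul_cancel, one_mul, one_mul,
    pa_A hP hI hx, pa_A hP hI hy] at h1
  exact h1

/-- inverse action -/
theorem pa_inv_pa (g : G) {x : G} (hx : x ∈ A) : pa hP (g⁻¹ * pa hP (g * x)) = x := by
  rw [pa_mul_pa hP hI, ← mul_assoc, inv_mul_cancel, one_mul, pa_A hP hI hx]

theorem pa_pa_inv (g : G) {x : G} (hx : x ∈ A) : pa hP (g * pa hP (g⁻¹ * x)) = x := by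
  rw [pa_mul_pa hP hI, ← mul_assoc, mul_inv_cancel, one_mul, pa_A hP hI hx]

/-- `g ▷ (x y) = (g ▷ x) ((g ◁ x) ▷ y)` -/
theorem pa_xy (g x y : G) : pa hP (g * (x * y)) = pa hP (g * x) * pa hP (pb hP (g * x) * y) := by
  have : g * (x * y) = pa hP (g * x) * (pb hP (g * x) * y) := by
    rw [← mul_assoc (pa hP (g * x)), pa_mul_pb, mul_assoc]
  rw [this, pa_mul_left hP hI (pa_mem hP _)]

/-- `g ◁ (x y) = (g ◁ x) ◁ y` -/
theorem pb_xy (g x y : G) : pb hP (g * (x * y)) = pb hP (pb hP (g * x) * y) := by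
  rw [pb_eq, pb_eq hP (pb hP (g * x) * y), pa_xy hP hI, pb_eq hP (g * x)]
  group

omit hI

/-- the relation `U`: all `b ∈ B` satisfy `b ▷ (x y) = (b ▷ x) (b ▷ y)` -/
def U (x y : G) : Prop := ∀ b ∈ B, pa hP (b * (x * y)) = pa hP (b * x) * pa hP (b * y)

include hI

theorem U_iff {x y : G} : U hP x y ↔ ∀ b ∈ B, pa hP (pb hP (b * x) * y) = pa hP (b * y) := by
  unfold U
  constructor
  · intro h b hb
    have := h b hb
    rw [pa_xy hP hI] at this
    exact mul_left_cancel this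
  · intro h b hb
    rw [pa_xy hP hI, h b hb]

omit hI in
theorem U_symm (hA : ∀ x ∈ A, ∀ y ∈ A, x * y = y * x) {x y : G} (hx : x ∈ A) (hy : y ∈ A)
    (h : U hP x y) : U hP y x := by
  intro b hb
  rw [hA y hy x hx, h b hb]
  exact hA _ (pa_mem hP _) _ (pa_mem hP _)

theorem U_conj {x y b : G} (hb : b ∈ B)
    (h : U hP x y) : U hP (pa hP (b * x)) (pa hP (b * y)) := by
  intro b' hb'
  rw [← h b hb, pa_mul_pa hP hI, pa_mul_pa hP hI, pa_mul_pa hP hI, ← mul_assoc b' b x,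
    ← mul_assoc b' b y, ← mul_assoc b' b (x * y)]
  exact h (b' * b) (B.mul_mem hb' hb)

theorem U_one {x : G} : U hP x 1 := by
  intro b hb
  rw [mul_one, mul_one, pa_B hP hI hb, mul_one]

theorem U_mul (hA : ∀ x ∈ A, ∀ y ∈ A, x * y = y * x) {x y y' : G} (hx : x ∈ A) (hy : y ∈ A)
    (hy' : y' ∈ A) (h : U hP x y) (h' : U hP x y') : U hP x (y * y') := by
  have h1 := (U_iff hP hI).1 (U_symm hP hA hx hy h)
  have h2 := (U_iff hP hI).1 (U_symm hP hA hx hy' h')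
  apply U_symm hP hA (A.mul_mem hy hy') hx
  rw [U_iff hP hI]
  intro b hb
  rw [pb_xy hP hI, h2 _ (pb_mem hP _), h1 b hb]

theorem U_inv (hA : ∀ x ∈ A, ∀ y ∈ A, x * y = y * x) {x y : G} (hx : x ∈ A) (hy : y ∈ A)
    (h : U hP x y) : U hP x y⁻¹ := by
  have h1 := (U_iff hP hI).1 (U_symm hP hA hx hy h)
  apply U_symm hP hA (A.inv_mem hy) hx
  rw [U_iff hP hI]
  intro b hb
  have h2 := h1 _ (pb_mem hP (b * y⁻¹))
  rw [← pb_xy hP hI, inv_mul_cancel, mul_one, pb_B hP hI hb] at h2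
  exact h2.symm

/-- `w` central in `B`: `U (w ▷ x) y` iff `U x y` -/
theorem U_w (hA : ∀ x ∈ A, ∀ y ∈ A, x * y = y * x) {w : G}
    (hwc : ∀ b ∈ B, b * w = w * b) {x y : G} (hx : x ∈ A) (hy : y ∈ A)
    (h : U hP x y) : U hP (pa hP (w * x)) y := by
  have h1 := (U_iff hP hI).1 (U_symm hP hA hx hy h)
  apply U_symm hP hA hy (pa_mem hP _)
  rw [U_iff hP hI]
  intro b hb
  rw [pa_mul_pa hP hI, pa_mul_pa hP hI, ← mul_assoc, ← mul_assoc, hwc _ (pb_mem hP _), hwc b hb,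
    mul_assoc, mul_assoc, ← pa_mul_pa hP hI w, h1 b hb, pa_mul_pa hP hI]

end Pool.Agent.helper45.AB2
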