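import Pool.Agent.helper45.AB2.Pa

/-!
# The key relation: `[v_x, v_y] ≠ 1` implies `U x y`
-/

set_option autoImplicit false

namespace Pool.Agent.helper45.AB2

universe u

variable {G : Type u} [Group G] {A B C : Subgroup G}

/-- `v_x = x w x⁻¹ w⁻¹` -/
def vv (w x : G) : G := x * w * x⁻¹ * w⁻¹

theorem key_identity (hA : ∀ x ∈ A, ∀ y ∈ A, x * y = y * x) {w x y a2 a3 b2 b3 : G}
    (hx : x ∈ A) (hy : y ∈ A) (ha2 : a2 ∈ A) (ha3 : a3 ∈ A)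
    (hw2 : b2 * w = w * b2) (hw3 : b3 * w = w * b3)
    (h2 : y⁻¹ * w⁻¹ * y = a2 * b2) (h3 : w⁻¹ * x⁻¹ * w = b3 * a3) :
    (vv w y)⁻¹ * vv w x * vv w y * (vv w x)⁻¹
      = (w * y * a3⁻¹) * (b3⁻¹ * b2⁻¹ * b3 * b2) * (w * y * a3⁻¹)⁻¹ := by
  have c1 : y⁻¹ * x = x * y⁻¹ := hA _ (A.inv_mem hy) _ hx
  have c2 : a2⁻¹ * x⁻¹ = x⁻¹ * a2⁻¹ := hA _ (A.inv_mem ha2) _ (A.inv_mem hx)
  have c3 : y⁻¹ * a3⁻¹ = a3⁻¹ * y⁻¹ := hA _ (A.inv_mem hy) _ (A.inv_mem ha3)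
  have c4 : y * a3 = a3 * y := hA _ hy _ ha3
  have c5 : a2⁻¹ * a3 = a3 * a2⁻¹ := hA _ (A.inv_mem ha2) _ ha3
  have c6 : y * x⁻¹ = x⁻¹ * y := hA _ hy _ (A.inv_mem hx)
  have h2' : y⁻¹ * w * y = (a2 * b2)⁻¹ := by rw [← h2]; group
  have h3' : w⁻¹ * x * w = (b3 * a3)⁻¹ := by rw [← h3]; group
  have h3'' : x⁻¹ = b3 * (w * a3 * w⁻¹) := by
    have : x⁻¹ = w * (w⁻¹ * x⁻¹ * w) * w⁻¹ := by group
    rw [this, h3]
    have e : w * (b3 * a3) * w⁻¹ = (w * b3) * a3 * w⁻¹ := by group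
    rw [e, ← hw3]
    group
  have E2 : y⁻¹ * w⁻¹ * vv w x * w * y = a3⁻¹ * b2⁻¹ * a3 * b2 := by
    unfold vv
    calc y⁻¹ * w⁻¹ * (x * w * x⁻¹ * w⁻¹) * w * y = y⁻¹ * (w⁻¹ * x * w) * x⁻¹ * y := by group
      _ = y⁻¹ * (b3 * a3)⁻¹ * (b3 * (w * a3 * w⁻¹)) * y := by rw [h3', h3'']
      _ = (y⁻¹ * a3⁻¹) * w * a3 * w⁻¹ * y := by group
      _ = a3⁻¹ * (y⁻¹ * w * y) * (y⁻¹ * a3) * w⁻¹ * y := by rw [c3]; group
      _ = a3⁻¹ * (y⁻¹ * w * y) * (a3 * y⁻¹) * w⁻¹ * y := by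
          rw [hA _ (A.inv_mem hy) _ ha3]
      _ = a3⁻¹ * (y⁻¹ * w * y) * a3 * (y⁻¹ * w⁻¹ * y) := by group
      _ = a3⁻¹ * (a2 * b2)⁻¹ * a3 * (a2 * b2) := by rw [h2, h2']
      _ = a3⁻¹ * b2⁻¹ * (a2⁻¹ * a3) * a2 * b2 := by group
      _ = a3⁻¹ * b2⁻¹ * a3 * b2 := by rw [c5]; group
  have E1 : w⁻¹ * y⁻¹ * vv w x * y * w = a3⁻¹ * (b3⁻¹ * b2⁻¹ * b3 * a3 * b2) := by
    unfold vv
    calc w⁻¹ * y⁻¹ * (x * w * x⁻¹ * w⁻¹) * y * w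
        = w⁻¹ * (y⁻¹ * x) * w * x⁻¹ * w⁻¹ * y * w := by group
      _ = w⁻¹ * x * (y⁻¹ * w * y) * (y⁻¹ * x⁻¹) * w⁻¹ * y * w := by rw [c1]; group
      _ = w⁻¹ * x * (y⁻¹ * w * y) * (x⁻¹ * y⁻¹) * w⁻¹ * y * w := by
          rw [hA _ (A.inv_mem hy) _ (A.inv_mem hx)]
      _ = w⁻¹ * x * (y⁻¹ * w * y) * x⁻¹ * (y⁻¹ * w⁻¹ * y) * w := by group
      _ = w⁻¹ * x * (a2 * b2)⁻¹ * x⁻¹ * (a2 * b2) * w := by rw [h2, h2']
      _ = w⁻¹ * x * b2⁻¹ * (a2⁻¹ * x⁻¹) * a2 * (b2 * w) := by group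
      _ = (w⁻¹ * x) * b2⁻¹ * x⁻¹ * (w * b2) := by rw [c2, hw2]; group
      _ = (w⁻¹ * x * w) * (w⁻¹ * b2⁻¹) * x⁻¹ * w * b2 := by group
      _ = (w⁻¹ * x * w) * (b2⁻¹ * w⁻¹) * x⁻¹ * w * b2 := by
          have : w⁻¹ * b2⁻¹ = b2⁻¹ * w⁻¹ := by
            rw [← mul_inv_rev, ← mul_inv_rev, hw2]
          rw [this]
      _ = (w⁻¹ * x * w) * b2⁻¹ * (w⁻¹ * x⁻¹ * w) * b2 := by group
      _ = (b3 * a3)⁻¹ * b2⁻¹ * (b3 * a3) * b2 := by rw [h3, h3']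
      _ = a3⁻¹ * (b3⁻¹ * b2⁻¹ * b3 * a3 * b2) := by group
  have E1' : (vv w y)⁻¹ * vv w x * vv w y = (w * y) * (w⁻¹ * y⁻¹ * vv w x * y * w) * (w * y)⁻¹ := by
    unfold vv
    group
  have E2' : (vv w x)⁻¹ = (w * y) * (y⁻¹ * w⁻¹ * vv w x * w * y)⁻¹ * (w * y)⁻¹ := by group
  rw [E1', E2', E1, E2]
  group

/-- conjugation of `v_x` by `b ∈ B` -/
theorem vv_conj (hF : Fac A B C) {w x b : G} (hwc : ∀ b ∈ B, b * w = w * b)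
    (hb : b ∈ B) : b * vv w x * b⁻¹ = vv w (pa hF.prod (b * x)) := by
  have h1 : b * x = pa hF.prod (b * x) * pb hF.prod (b * x) := (pa_mul_pb hF.prod _).symm
  have h2 := hwc _ (pb_mem hF.prod (b * x))
  have h3 := hwc _ hb
  set p := pa hF.prod (b * x)
  set q := pb hF.prod (b * x)
  have hx : x = b⁻¹ * (p * q) := by rw [← h1]; group
  have e1 : b * vv w x * b⁻¹ = (b * x) * w * (b * x)⁻¹ * (b * w⁻¹ * b⁻¹) := by
    unfold vv; group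
  have e2 : b * w⁻¹ * b⁻¹ = w⁻¹ := by
    have : b * w⁻¹ * b⁻¹ = (b * w * b⁻¹)⁻¹ := by group
    rw [this, h3]; group
  rw [e1, e2, h1]
  unfold vv
  have e3 : p * q * w * (p * q)⁻¹ = p * (q * w) * q⁻¹ * p⁻¹ := by group
  rw [e3, h2]
  group

theorem kappa (hF : Fac A B C) {w x y : G} (hwB : w ∈ B)
    (hwc : ∀ b ∈ B, b * w = w * b) (hI : ∀ x ∈ A, x ∈ B → x = 1)
    (hx : x ∈ A) (hy : y ∈ A) :
    ∃ d, Dm B C d ∧ (vv w y)⁻¹ * vv w x * vv w y * (vv w x)⁻¹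
      = (w * y * pa hF.prod (w⁻¹ * x)) * d * (w * y * pa hF.prod (w⁻¹ * x))⁻¹ := by
  have h1 := pa_mul_pb hF.prod (y⁻¹ * w⁻¹ * y)
  have h2 := pa_mul_pb hF.prod (w⁻¹ * x * w)
  have h3 : pa hF.prod (w⁻¹ * x * w) = pa hF.prod (w⁻¹ * x) := pa_mul_right hF.prod hI hwB
  have m1 := pb_mem hF.prod (y⁻¹ * w⁻¹ * y)
  have m2 := pb_mem hF.prod (w⁻¹ * x * w)
  rw [h3] at h2
  refine ⟨_, hF.comm_Dm (B.inv_mem m2) m1, ?_⟩
  have key := key_identity hF.commA (w := w) (x := x) (y := y)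
    (a2 := pa hF.prod (y⁻¹ * w⁻¹ * y)) (a3 := (pa hF.prod (w⁻¹ * x))⁻¹)
    (b2 := pb hF.prod (y⁻¹ * w⁻¹ * y)) (b3 := (pb hF.prod (w⁻¹ * x * w))⁻¹)
    hx hy (pa_mem _ _) (A.inv_mem (pa_mem _ _)) (hwc _ m1) (hwc _ (B.inv_mem m2)) h1.symm
    (by
      rw [← mul_inv_rev (pa hF.prod (w⁻¹ * x)) (pb hF.prod (w⁻¹ * x * w)), h2]
      group)
  rw [key, inv_inv]

/-- the relation (R) -/
theorem rel (h : P1 G) (hF : Fac A B C) {w : G} (hwB : w ∈ B)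
    (hwc : ∀ b ∈ B, b * w = w * b) {x y : G} (hx : x ∈ A) (hy : y ∈ A)
    (hne : vv w x * vv w y ≠ vv w y * vv w x) : U hF.prod x y := by
  have hI : ∀ x ∈ A, x ∈ B → x = 1 := fun x hA hB => inter_AB h hF hA hB
  set x' := pa hF.prod (w⁻¹ * x) with hx'
  have hx'A : x' ∈ A := pa_mem _ _
  have key : U hF.prod y x' := by
    intro b hb
    obtain ⟨d, hd, hk⟩ := kappa hF hwB hwc hI hx hy
    obtain ⟨d', hd', hk'⟩ := kappa hF hwB hwc hI (pa_mem hF.prod (b * x)) (pa_mem hF.prod (b * y))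
    rw [← vv_conj hF hwc hb, ← vv_conj hF hwc hb] at hk'
    set H := w * y * x' with hH
    set H' := w * pa hF.prod (b * y) * pa hF.prod (w⁻¹ * pa hF.prod (b * x)) with hH'
    have hd1 : d ≠ 1 := by
      rintro rfl
      apply hne
      rw [mul_one, mul_inv_cancel, mul_inv_eq_one, mul_assoc, inv_mul_eq_iff_eq_mul] at hk
      exact hk
    have e1 : d' = (H⁻¹ * (b⁻¹ * H'))⁻¹ * d * (H⁻¹ * (b⁻¹ * H')) := by
      have e2 : b * ((vv w y)⁻¹ * vv w x * vv w y * (vv w x)⁻¹) * b⁻¹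
          = (b * vv w y * b⁻¹)⁻¹ * (b * vv w x * b⁻¹) * (b * vv w y * b⁻¹) *
            (b * vv w x * b⁻¹)⁻¹ := by group
      rw [← e2, hk] at hk'
      have e3 : d' = H'⁻¹ * (H' * d' * H'⁻¹) * H' := by group
      rw [e3, ← hk']
      group
    have e4 : H⁻¹ * (b⁻¹ * H') ∈ B := by
      apply TI h hF hd hd1
      rw [← e1]
      exact hd'
    have e5 : pa hF.prod (b⁻¹ * H') = pa hF.prod H := by
      have : b⁻¹ * H' = H * (H⁻¹ * (b⁻¹ * H')) := by group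
      rw [this, pa_mul_right hF.prod hI e4]
    -- rewrite
    have e6 : pa hF.prod (w⁻¹ * pa hF.prod (b * x)) = pa hF.prod (b * x') := by
      have hwi : b * w⁻¹ = w⁻¹ * b := by
        have := hwc b hb
        have e : b * w⁻¹ = w⁻¹ * (w * b) * w⁻¹ := by group
        rw [e, ← this]; group
      rw [pa_mul_pa hF.prod hI, hx', pa_mul_pa hF.prod hI, ← mul_assoc, ← mul_assoc, hwi]
    have e7 : b⁻¹ * H' = w * (b⁻¹ * (pa hF.prod (b * y) * pa hF.prod (b * x'))) := by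
      rw [hH', e6]
      have hwi : b⁻¹ * w = w * b⁻¹ := hwc _ (B.inv_mem hb)
      rw [← mul_assoc, ← mul_assoc, hwi]
      group
    have e8 : pa hF.prod (w * (y * x')) = pa hF.prod H := by rw [hH, mul_assoc]
    rw [e7, ← e8, ← pa_mul_pa hF.prod hI w] at e5
    have e9 := pa_inj hF.prod hI (pa_mem _ _) (A.mul_mem hy hx'A) e5
    have e10 : pa hF.prod (b * (y * x'))
        = pa hF.prod (b * pa hF.prod (b⁻¹ * (pa hF.prod (b * y) * pa hF.prod (b * x')))) := by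
      rw [e9]
    rw [e10, pa_pa_inv hF.prod hI b (A.mul_mem (pa_mem _ _) (pa_mem _ _))]
  have key2 := U_w hF.prod hI hF.commA hwc hx'A hy (U_symm hF.prod hF.commA hy hx'A key)
  rw [hx', pa_pa_inv hF.prod hI w hx] at key2
  exact key2

end Pool.Agent.helper45.AB2
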